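import Pool.Agent.H637R4.PO.Defs1

set_option autoImplicit false

open Complex Topology Filter Metric MeasureTheory Set N62a1eb23
open Pool.Agent.H713R2 Pool.Agent.H713R2.AR

namespace Pool.Agent.H637R4.PO

theorem t_AE (hLEB : S_LEB) (hPOR : S_POR) (hCLO : S_CLO) : S_AE := by
  intro d hd
  have hcl := hCLO d hd
  filter_upwards [hLEB _ hcl, ae_restrict_mem hcl.measurableSet] with c hc hcM α hα
  by_contra hcon
  push Not at hcon
  have hκ : 0 < 5 / 8 * ((1 / 2 : ℝ) ^ (1 / (α / 2))) ^ 5 := by positivity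
  obtain ⟨ρ₁, hρ₁, hno⟩ := hc _ hκ
  obtain ⟨ρ, hρ, hpor⟩ := hPOR d hd c hcM (α / 2) (by positivity) (by
    intro δ hδ s₁ hs₁
    obtain ⟨s, hs, hlt⟩ := hcon (min s₁ (δ ^ (1 / (α / 2)))) (lt_min hs₁ (by positivity))
    have hs0 : 0 < s := hs.1
    refine ⟨s, ⟨hs0, hs.2.trans_le (min_le_left _ _)⟩, hlt.le.trans ?_⟩
    have h1 : s ^ (α / 2) ≤ δ := by
      have h2 : s ≤ δ ^ (1 / (α / 2)) := (hs.2.trans_le (min_le_right _ _)).le
      calc s ^ (α / 2) ≤ (δ ^ (1 / (α / 2))) ^ (α / 2) :=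
            Real.rpow_le_rpow hs0.le h2 (by positivity)
        _ = δ := by
            rw [← Real.rpow_mul hδ.le, one_div, inv_mul_cancel₀ (by positivity), Real.rpow_one]
    calc s ^ α = s ^ (α / 2) * s ^ (α / 2) := by
          rw [← Real.rpow_add hs0]
          congr 1
          ring
      _ ≤ δ * s ^ (α / 2) := mul_le_mul_of_nonneg_right h1 (by positivity)) ρ₁ hρ₁
  exact hno ρ hρ hpor

end Pool.Agent.H637R4.PO
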