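import Pool.Agent.H637R4.PO.Defs3

set_option autoImplicit false

open Complex Topology Filter Metric MeasureTheory Set N62a1eb23
open Pool.Agent.H713R2 Pool.Agent.H713R2.AR

namespace Pool.Agent.H637R4.PO

theorem AE2_ext {d : ℕ} (hd : 2 ≤ d) : ∃ ψ, Ext (multibrotSet d) ψ := by
  obtain ⟨β, hβ⟩ := exists_beta hd
  have h := exteriorMap_of_beta hβ
  exact ⟨_, h.diff, h.inj, h.image, h.infinity⟩

theorem AE2_small (β r : ℝ) (hβ : 0 < β) (hr : 0 < r) :
    ∃ s₀ : ℝ, 0 < s₀ ∧ ∀ s ∈ Ioo 0 s₀, Real.exp (-(Real.log (1 / s)) ^ β) ≤ r := by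
  have h1 : Tendsto (fun s : ℝ => Real.log (1 / s)) (𝓝[>] 0) atTop := by
    have h2 : (fun s : ℝ => Real.log (1 / s)) = fun s => - Real.log s := by
      funext s
      rw [one_div, Real.log_inv]
    rw [h2]
    exact tendsto_neg_atBot_atTop.comp Real.tendsto_log_nhdsGT_zero
  have h3 : Tendsto (fun s : ℝ => Real.exp (-(Real.log (1 / s)) ^ β)) (𝓝[>] 0) (𝓝 0) :=
    Real.tendsto_exp_neg_atTop_nhds_zero.comp ((tendsto_rpow_atTop hβ).comp h1)
  have h4 : ∀ᶠ s in 𝓝[>] (0 : ℝ), Real.exp (-(Real.log (1 / s)) ^ β) ≤ r :=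
    (h3.eventually (gt_mem_nhds hr)).mono fun s hs => hs.le
  obtain ⟨s₀, hs₀, h5⟩ := mem_nhdsGT_iff_exists_Ioo_subset.1 h4
  exact ⟨s₀, hs₀, fun s hs => h5 hs⟩

theorem t_AE2 (hITER : S_ITER) (hMARC : S_MARC) (hASY : S_ASY) (hNUL : S_NUL) (hMONO : S_MONO)
    (hAREA : S_AREA) (hNRM : S_NRM) (hCLO : S_CLO) (hUB : S_UB) : S_AE2 := by
  intro d hd
  have hcl := hCLO d hd
  have hsub : multibrotSet d ⊆ closedBall 0 2 := fun c hc => by
    rw [mem_closedBall_zero_iff]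
    exact hNRM d hd c hc
  rcases (multibrotSet d).eq_empty_or_nonempty with he | hne
  · rw [he, Measure.restrict_empty]
    simp
  have h1 : ∀ᵐ c ∂(volume.restrict (multibrotSet d)), ∀ n : ℕ,
      Summable (fun k : ℕ => mm (multibrotSet d) (1 / ((n : ℝ) + 1)) c ((1 / 2 : ℝ) ^ k)) := by
    refine ae_all_iff.2 fun n => ?_
    refine hMARC (multibrotSet d) hcl hsub hne (1 / ((n : ℝ) + 1)) (by positivity) ?_
    rw [div_le_one (by positivity)]
    have : (0 : ℝ) ≤ n := Nat.cast_nonneg n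
    linarith
  filter_upwards [h1, ae_restrict_mem hcl.measurableSet] with c hc hcK β hβ
  obtain ⟨ψ, hψ⟩ := AE2_ext hd
  obtain ⟨U, hU, hUB'⟩ := hUB (multibrotSet d) ψ hψ 3
  have hc2 := hNRM d hd c hcK
  have hB1 : Bnd ψ c 1 U := by
    intro w hw hwb
    apply hUB' w hw
    rw [mem_ball, dist_eq_norm] at hwb
    have := norm_sub_norm_le (ψ w) c
    linarith
  have hdR : (0 : ℝ) < d := by exact_mod_cast (by omega : 0 < d)
  have hCd : 0 < Cd d := by unfold Cd; positivity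
  obtain ⟨n, hn⟩ := exists_nat_one_div_lt (by linarith : 0 < β - 1 / 2)
  set l : ℝ := 1 / ((n : ℝ) + 1) with hl
  have hl0 : 0 < l := by rw [hl]; positivity
  have hlβ : (1 + l) / (2 + l) < β := by
    rw [div_lt_iff₀ (by linarith)]
    nlinarith
  by_cases hall : ∀ k : ℕ, 0 < mm (multibrotSet d) l c ((1 / 2 : ℝ) ^ k)
  · have hs := hc n
    rw [← hl] at hs
    have hBpos : 0 < (∑' k : ℕ, mm (multibrotSet d) l c ((1 / 2 : ℝ) ^ k)) + 1 := by
      have h2 : 0 ≤ ∑' k : ℕ, mm (multibrotSet d) l c ((1 / 2 : ℝ) ^ k) :=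
        tsum_nonneg (fun k => (hall k).le)
      linarith
    obtain ⟨b, hb, hbn⟩ := hITER (multibrotSet d) ψ hψ c U l _ hcK hU hl0 hBpos hB1 hall (by
      intro n
      have := hs.sum_le_tsum (Finset.range n) (fun k _ => (hall k).le)
      linarith)
    exact hASY (fun s => Ar d c s) U (Cd d) b l β d hU hCd hb hl0 hdR hlβ
      (fun s t _ hst => hMONO d hd c hcK s t hst)
      (fun n hn1 => hAREA d hd ψ hψ c hcK ((1 / 2 : ℝ) ^ n) (sb U b l n) (by positivity)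
        (by unfold sb; positivity) hn1 (hbn n))
  · push Not at hall
    obtain ⟨k, hk⟩ := hall
    have hρ : (0 : ℝ) < (1 / 2 : ℝ) ^ k := by positivity
    have hball := hNUL (multibrotSet d) hcl c ((1 / 2 : ℝ) ^ k) l hcK hρ hl0 hk
    have hBnd : Bnd ψ c ((1 / 2 : ℝ) ^ k) 0 := by
      intro w hw hwb
      exfalso
      have h2 : ψ w ∈ (multibrotSet d)ᶜ := by
        rw [← hψ.image]
        exact mem_image_of_mem ψ hw
      exact h2 (hball (ball_subset_ball (by linarith) hwb))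
    have h3 := hAREA d hd ψ hψ c hcK ((1 / 2 : ℝ) ^ k) 0 hρ le_rfl zero_le_one hBnd
    rw [zero_div] at h3
    have h4 : 0 < Ar d c 0 := by
      by_contra hcon
      have := mul_nonpos_of_nonneg_of_nonpos hCd.le (not_lt.1 hcon)
      linarith
    obtain ⟨s₀, hs₀, h5⟩ := AE2_small β (Ar d c 0) (by linarith) h4
    exact ⟨s₀, hs₀, fun s hs => (h5 s hs).trans (hMONO d hd c hcK 0 s hs.1.le)⟩

end Pool.Agent.H637R4.PO
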