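import Pool.Agent.H637R4.PO.Defs1

set_option autoImplicit false

open Complex Topology Filter Metric MeasureTheory Set N62a1eb23
open Pool.Agent.H713R2 Pool.Agent.H713R2.AR

namespace Pool.Agent.H637R4.PO

theorem t_AREA (hSTAR : S_STAR) (hNRM : S_NRM) : S_AREA := by
  intro d hd ψ hψ c hc ρ s hρ hs hs1 hB
  have hc2 := hNRM d hd c hc
  have hdR : (2 : ℝ) ≤ d := by exact_mod_cast hd
  have h1 := hSTAR d 0 (d - 2) (by omega) ψ hψ c ρ s hρ hs hB
  set G := GLev d c (s / d) with hG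
  have hGc : IsCompact G := isCompact_GLev hd c _
  have hGfin : volume G ≠ ⊤ := hGc.measure_lt_top.ne
  set Vv : ℝ := (volume G).toReal with hV
  have hV0 : 0 ≤ Vv := ENNReal.toReal_nonneg
  have hAr : Ar d c (s / d) = Vv := rfl
  have hsd : s / d ≤ 1 := by
    rw [div_le_one (by linarith)]
    linarith
  have hnorm : ∀ z ∈ G, ‖z‖ ≤ 4 * Real.exp 1 := by
    intro z hz
    have h2 := norm_iter_le hd (A := 2) (by norm_num) hc2 z 0
    simp only [Function.iterate_zero, id_eq, pow_zero, one_mul] at h2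
    have hz' : green d c z ≤ s / d := hz
    have h3 : Real.exp (green d c z) ≤ Real.exp 1 := Real.exp_le_exp.2 (hz'.trans hsd)
    linarith
  have e1 : ∫ z in G, ‖z‖ ^ (2 * 0) = Vv := by
    simp only [mul_zero, pow_zero]
    rw [setIntegral_const, smul_eq_mul, mul_one]
    rfl
  have e2 : ∫ z in G, ‖z‖ ^ (2 * (d - 2)) ≤ (4 * Real.exp 1) ^ (2 * (d - 2)) * Vv := by
    have h2 : ∫ z in G, ‖z‖ ^ (2 * (d - 2)) ≤ ∫ z in G, (4 * Real.exp 1) ^ (2 * (d - 2)) := by
      refine setIntegral_mono_on ?_ ?_ hGc.measurableSet ?_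
      · exact ((continuous_norm.pow _).continuousOn).integrableOn_compact hGc
      · exact continuousOn_const.integrableOn_compact hGc
      · intro z hz
        exact pow_le_pow_left₀ (norm_nonneg _) (hnorm z hz) _
    refine h2.trans (le_of_eq ?_)
    rw [setIntegral_const, smul_eq_mul, mul_comm]
    rfl
  rw [e1] at h1
  rw [hAr]
  unfold Cd
  refine h1.trans ?_
  have h4 : √(Vv * ∫ z in G, ‖z‖ ^ (2 * (d - 2))) ≤ (4 * Real.exp 1) ^ (d - 2) * Vv := by
    rw [Real.sqrt_le_left (by positivity)]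
    calc Vv * ∫ z in G, ‖z‖ ^ (2 * (d - 2)) ≤ Vv * ((4 * Real.exp 1) ^ (2 * (d - 2)) * Vv) :=
          mul_le_mul_of_nonneg_left e2 hV0
      _ = ((4 * Real.exp 1) ^ (d - 2) * Vv) ^ 2 := by
          rw [mul_comm 2 (d - 2), pow_mul]
          ring
  calc (d : ℝ) / Real.pi * √(Vv * ∫ z in G, ‖z‖ ^ (2 * (d - 2)))
      ≤ (d : ℝ) / Real.pi * ((4 * Real.exp 1) ^ (d - 2) * Vv) :=
        mul_le_mul_of_nonneg_left h4 (by positivity)
    _ = (d : ℝ) / Real.pi * (4 * Real.exp 1) ^ (d - 2) * Vv := by ring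

end Pool.Agent.H637R4.PO
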