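import Pool.Agent.H637R4.PO.Defs2

set_option autoImplicit false

open Complex Topology Filter Metric MeasureTheory Set

namespace Pool.Agent.H637R4.PO

theorem ASY_ev (a q M : ℝ) (h : a < q) : ∀ᶠ y : ℝ in atTop, M * y ^ a ≤ y ^ q := by
  have h1 : Tendsto (fun y : ℝ => y ^ (q - a)) atTop atTop := tendsto_rpow_atTop (by linarith)
  filter_upwards [h1.eventually_ge_atTop M, eventually_gt_atTop 0] with y hy hy0
  have h2 : y ^ q = y ^ (q - a) * y ^ a := by
    rw [← Real.rpow_add hy0]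
    congr 1
    ring
  rw [h2]
  exact mul_le_mul_of_nonneg_right hy (Real.rpow_nonneg hy0.le _)

theorem ASY_sb (U b l : ℝ) (hU : 0 < U) (n : ℕ) : sb U b l n =
    Real.exp (Real.log U + n * Real.log 2 -
      b * Real.log 2 * (n : ℝ) ^ ((2 + l) / (1 + l))) := by
  unfold sb
  rw [Real.exp_sub, Real.exp_add, Real.exp_log hU]
  have h1 : Real.exp (n * Real.log 2) = 2 ^ n := by
    rw [mul_comm, Real.exp_mul, Real.exp_log (by norm_num), Real.rpow_natCast]
  have h2 : (2 : ℝ) ^ (-(b * (n : ℝ) ^ ((2 + l) / (1 + l)))) =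
      (Real.exp (b * Real.log 2 * (n : ℝ) ^ ((2 + l) / (1 + l))))⁻¹ := by
    rw [← Real.exp_neg, Real.rpow_def_of_pos (by norm_num)]
    congr 1
    ring
  rw [h1, h2]
  exact (div_eq_mul_inv _ _).symm

theorem t_ASY : S_ASY := by
  intro A U C b l β D hU hC hb hl hD hβ hA hn
  have hp1 : 1 < (2 + l) / (1 + l) := by
    rw [lt_div_iff₀ (by linarith)]
    linarith
  obtain ⟨g, hg1, hg2⟩ : ∃ g, (1 + l) / (2 + l) < g ∧ g < β := exists_between hβ
  have hg0 : 0 < g := lt_trans (by positivity) hg1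
  have hgp : 1 / g < (2 + l) / (1 + l) := by
    rw [div_lt_iff₀ (by linarith)] at hg1
    rw [div_lt_div_iff₀ hg0 (by linarith)]
    linarith
  have hβg : 1 < β / g := (one_lt_div hg0).2 hg2
  have hl2 : 0 < Real.log 2 := Real.log_pos (by norm_num)
  have hB : 0 < b * Real.log 2 := mul_pos hb hl2
  set B : ℝ := b * Real.log 2 with hBdef
  set p : ℝ := (2 + l) / (1 + l) with hp
  have hev : ∀ᶠ y : ℝ in atTop, 1 ≤ y ∧ 3 * (Real.log U - Real.log D) / B * y ^ (0 : ℝ) ≤ y ^ p ∧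
      3 * Real.log U / B * y ^ (0 : ℝ) ≤ y ^ p ∧
      6 * Real.log 2 / B * y ^ (1 : ℝ) ≤ y ^ p ∧ 3 / B * y ^ (1 / g) ≤ y ^ p ∧
      4 * Real.log 2 * y ^ (1 : ℝ) ≤ y ^ (β / g) ∧ 2 * Real.log C * y ^ (0 : ℝ) ≤ y ^ (β / g) := by
    filter_upwards [eventually_ge_atTop 1, ASY_ev 0 p (3 * (Real.log U - Real.log D) / B)
      (by linarith), ASY_ev 0 p (3 * Real.log U / B) (by linarith),
      ASY_ev 1 p (6 * Real.log 2 / B) hp1, ASY_ev (1 / g) p (3 / B) hgp,
      ASY_ev 1 (β / g) (4 * Real.log 2) hβg, ASY_ev 0 (β / g) (2 * Real.log C) (by linarith)]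
      with y h1 h2 h3 h4 h5 h6 h7
    exact ⟨h1, h2, h3, h4, h5, h6, h7⟩
  have ht0 : Tendsto (fun s : ℝ => Real.log (1 / s)) (𝓝[>] 0) atTop := by
    have h1 : Tendsto (fun s : ℝ => -Real.log s) (𝓝[>] 0) atTop :=
      tendsto_neg_atBot_atTop.comp Real.tendsto_log_nhdsGT_zero
    refine h1.congr fun s => ?_
    rw [one_div, Real.log_inv]
  have ht : Tendsto (fun s : ℝ => (Real.log (1 / s)) ^ g) (𝓝[>] 0) atTop :=
    (tendsto_rpow_atTop hg0).comp ht0
  have hall := (ht.eventually hev).and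
    ((ht0.eventually (eventually_gt_atTop 0)).and (self_mem_nhdsWithin (s := Ioi (0 : ℝ))))
  obtain ⟨s₀, hs₀, hsub⟩ := mem_nhdsGT_iff_exists_Ioo_subset.1 hall
  refine ⟨s₀, hs₀, fun s hs => ?_⟩
  obtain ⟨⟨h1, h2, h3, h4, h5, h6, h7⟩, hx, hs0⟩ := hsub hs
  have hs0' : (0 : ℝ) < s := hs0
  set x : ℝ := Real.log (1 / s) with hxdef
  set y : ℝ := x ^ g with hy
  have hy0 : 0 < y := by linarith
  have e1 : y ^ (1 / g) = x := by
    rw [hy, ← Real.rpow_mul hx.le, mul_one_div_cancel hg0.ne', Real.rpow_one]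
  have e2 : y ^ (β / g) = x ^ β := by
    rw [hy, ← Real.rpow_mul hx.le, mul_div_cancel₀ _ hg0.ne']
  rw [Real.rpow_zero, mul_one] at h2 h3 h7
  rw [Real.rpow_one] at h4 h6
  rw [e1] at h5
  rw [e2] at h6 h7
  have hxs : Real.log s = -x := by
    rw [hxdef, one_div, Real.log_inv, neg_neg]
  -- the choice of n
  set n : ℕ := ⌈y⌉₊ with hndef
  have hn1 : y ≤ n := Nat.le_ceil y
  have hn2 : (n : ℝ) < y + 1 := Nat.ceil_lt_add_one hy0.le
  have hnp : y ^ p ≤ (n : ℝ) ^ p := Real.rpow_le_rpow hy0.le hn1 (by linarith)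
  have hBn : B * y ^ p ≤ B * (n : ℝ) ^ p := mul_le_mul_of_nonneg_left hnp hB.le
  have h2' : 3 * (Real.log U - Real.log D) ≤ B * y ^ p := by
    have := mul_le_mul_of_nonneg_left h2 hB.le
    rwa [mul_div_cancel₀ _ hB.ne'] at this
  have h3' : 3 * Real.log U ≤ B * y ^ p := by
    have := mul_le_mul_of_nonneg_left h3 hB.le
    rwa [mul_div_cancel₀ _ hB.ne'] at this
  have h4' : 6 * Real.log 2 * y ≤ B * y ^ p := by
    have := mul_le_mul_of_nonneg_left h4 hB.le
    rwa [← mul_assoc, mul_div_cancel₀ _ hB.ne'] at this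
  have h5' : 3 * x ≤ B * y ^ p := by
    have := mul_le_mul_of_nonneg_left h5 hB.le
    rwa [← mul_assoc, mul_div_cancel₀ _ hB.ne'] at this
  have hnl : (n : ℝ) * Real.log 2 ≤ 2 * Real.log 2 * y := by
    nlinarith
  have hsb : sb U b l n = Real.exp (Real.log U + n * Real.log 2 - B * (n : ℝ) ^ p) :=
    ASY_sb U b l hU n
  have hsb1 : sb U b l n ≤ 1 := by
    rw [hsb, Real.exp_le_one_iff]
    linarith
  have hsb2 : sb U b l n / D ≤ s := by
    rw [div_le_iff₀ hD, hsb]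
    have h8 : s * D = Real.exp (Real.log s + Real.log D) := by
      rw [Real.exp_add, Real.exp_log hs0', Real.exp_log hD]
    rw [h8]
    apply Real.exp_le_exp.2
    linarith
  have hsb0 : 0 ≤ sb U b l n / D := by
    rw [hsb]
    positivity
  have h9 := hn n hsb1
  have h10 : A (sb U b l n / D) ≤ A s := hA _ _ hsb0 hsb2
  have h11 : C * Real.exp (-x ^ β) ≤ (1 / 2 : ℝ) ^ n := by
    have h12 : (1 / 2 : ℝ) ^ n = Real.exp (-(n * Real.log 2)) := by
      rw [one_div, inv_pow, Real.exp_neg, mul_comm, Real.exp_mul, Real.exp_log (by norm_num),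
        Real.rpow_natCast]
    have h13 : C * Real.exp (-x ^ β) = Real.exp (Real.log C + -x ^ β) := by
      rw [Real.exp_add, Real.exp_log hC]
    rw [h12, h13]
    apply Real.exp_le_exp.2
    nlinarith
  have h14 : C * Real.exp (-x ^ β) ≤ C * A s :=
    h11.trans (h9.trans (mul_le_mul_of_nonneg_left h10 hC.le))
  exact le_of_mul_le_mul_left h14 hC

end Pool.Agent.H637R4.PO
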