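import Pool.Agent.H637R4.PO.Defs2

set_option autoImplicit false

open Complex Topology Filter Metric MeasureTheory Set

namespace Pool.Agent.H637R4.PO

theorem t_BALLS (hQT : S_QT) (hRAY : S_RAY) : S_BALLS := by
  intro K ψ hψ c e x ρ l N hc he hx hρ hl h0 hin hout
  obtain ⟨t, ht⟩ : ∃ t : ℕ → ℝ, ∀ j, t j = 2 ^ j * x := ⟨fun j => 2 ^ j * x, fun _ => rfl⟩
  have htp : ∀ j, 0 < t j := fun j => by rw [ht]; positivity
  obtain ⟨w, hw⟩ : ∃ w : ℕ → ℂ, ∀ j, w j = ((1 + t j : ℝ) : ℂ) * e := ⟨_, fun _ => rfl⟩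
  have hwn : ∀ j, ‖w j‖ = 1 + t j := by
    intro j
    have := htp j
    rw [hw, norm_mul, he, mul_one, Complex.norm_real, Real.norm_of_nonneg (by linarith)]
  have hball : ∀ j, ball (w j) (t j) ⊆ {z | 1 < ‖z‖} := by
    intro j z hz
    rw [mem_ball, dist_eq_norm] at hz
    have h1 := norm_sub_norm_le (w j) z
    have h2 := norm_sub_rev (w j) z
    rw [hwn] at h1
    show 1 < ‖z‖
    linarith
  have hK : ∀ m ∈ K, ∀ S : Set ℂ, S ⊆ {z | 1 < ‖z‖} → m ∉ ψ '' S := by
    intro m hm S hS hmS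
    have h1 : m ∈ ψ '' {z | 1 < ‖z‖} := image_mono hS hmS
    rw [hψ.image] at h1
    exact h1 hm
  obtain ⟨r, hr⟩ : ∃ r : ℕ → ℝ, ∀ j, r j = t j * ‖deriv ψ (w j)‖ / 12 := ⟨_, fun _ => rfl⟩
  have hr0 : ∀ j, 0 ≤ r j := fun j => by
    have := htp j
    rw [hr]; positivity
  have hF2 : ∀ j, ∀ m ∈ K, 3 * r j ≤ ‖m - ψ (w j)‖ := by
    intro j m hm
    have h1 := hQT ψ (w j) m (t j) (htp j) (hψ.diff.mono (hball j)) (hψ.inj.mono (hball j))
      (hK m hm _ (hball j))
    rw [hr]
    linarith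
  have hsub3 : ∀ j, ball (w j) (t j / 3) ⊆ ball (w j) (t j) := fun j =>
    ball_subset_ball (by have := htp j; linarith)
  have hF3 : ∀ j, ball (ψ (w j)) (r j) ⊆ ψ '' ball (w j) (t j / 3) := by
    intro j v hv
    by_contra hcon
    have h1 := hQT ψ (w j) v (t j / 3) (by have := htp j; positivity)
      (hψ.diff.mono ((hsub3 j).trans (hball j))) (hψ.inj.mono ((hsub3 j).trans (hball j))) hcon
    rw [mem_ball, dist_eq_norm, hr] at hv
    linarith
  have ht2 : ∀ i j, i < j → 2 * t i ≤ t j := by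
    intro i j hij
    rw [ht, ht]
    have h1 : (2 : ℝ) ^ (i + 1) ≤ 2 ^ j := pow_le_pow_right₀ (by norm_num) hij
    rw [pow_succ] at h1
    nlinarith
  have hF4 : ∀ i j, i < j → Disjoint (ball (ψ (w i)) (r i)) (ball (ψ (w j)) (r j)) := by
    intro i j hij
    rw [Set.disjoint_left]
    intro v hvi hvj
    obtain ⟨a, ha, hav⟩ := hF3 i hvi
    obtain ⟨b, hb, hbv⟩ := hF3 j hvj
    have hab : a = b := hψ.inj (hball i (hsub3 i ha)) (hball j (hsub3 j hb)) (hav.trans hbv.symm)
    subst hab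
    rw [mem_ball, dist_eq_norm] at ha hb
    have h1 := norm_sub_norm_le (w j) (w i)
    rw [hwn, hwn] at h1
    have h2 := norm_add_le (w j - a) (a - w i)
    rw [sub_add_sub_cancel] at h2
    have h3 := norm_sub_rev (w j) a
    have h4 := ht2 i j hij
    linarith
  have hF5 : ∀ j, ∀ z ∈ ball (ψ (w j)) (r j), r j ≤ infDist z K := by
    intro j z hz
    rw [le_infDist ⟨c, hc⟩]
    intro m hm
    have h1 := hF2 j m hm
    rw [mem_ball, dist_eq_norm] at hz
    rw [dist_eq_norm]
    have h2 := norm_add_le (m - z) (z - ψ (w j))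
    rw [sub_add_sub_cancel] at h2
    have h3 := norm_sub_rev m z
    have h4 := hr0 j
    linarith
  have hinw : ∀ j < N, ‖ψ (w j) - c‖ < ρ := by
    intro j hj
    have h1 := hin j hj
    rw [mem_ball, dist_eq_norm] at h1
    rw [hw, ht]
    exact h1
  have hsubB : ∀ j < N, ball (ψ (w j)) (r j) ⊆ ball c (2 * ρ) := by
    intro j hj z hz
    rw [mem_ball, dist_eq_norm] at hz ⊢
    have h1 := hF2 j c hc
    have h2 := norm_sub_rev c (ψ (w j))
    have h3 := hinw j hj
    have h4 := norm_add_le (z - ψ (w j)) (ψ (w j) - c)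
    rw [sub_add_sub_cancel] at h4
    linarith
  -- the integral
  have hfc : Continuous fun z : ℂ => infDist z K ^ l :=
    (continuous_infDist_pt K).rpow_const (fun _ => Or.inr hl.le)
  have hfi : IntegrableOn (fun z : ℂ => infDist z K ^ l) (ball c (2 * ρ)) :=
    (hfc.continuousOn.integrableOn_compact (isCompact_closedBall c (2 * ρ))).mono_set
      ball_subset_closedBall
  have hf0 : ∀ z : ℂ, 0 ≤ infDist z K ^ l := fun z => Real.rpow_nonneg infDist_nonneg _
  have h6 : ∑ j ∈ Finset.range N, Real.pi * r j ^ (2 + l) ≤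
      ∫ z in ball c (2 * ρ), infDist z K ^ l := by
    have e1 : ∀ j ∈ Finset.range N, Real.pi * r j ^ (2 + l) ≤
        ∫ z in ball (ψ (w j)) (r j), infDist z K ^ l := by
      intro j hj
      have e2 : ∫ z in ball (ψ (w j)) (r j), (r j) ^ l = Real.pi * r j ^ (2 + l) := by
        rw [setIntegral_const, measureReal_def, Complex.volume_ball, smul_eq_mul,
          Real.rpow_add_of_nonneg (hr0 j) (by norm_num) hl.le]
        simp only [ENNReal.toReal_mul, ENNReal.toReal_pow, ENNReal.toReal_ofReal (hr0 j),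
          ENNReal.coe_toReal, NNReal.coe_real_pi]
        norm_num
        ring
      rw [← e2]
      refine setIntegral_mono_on ?_ ?_ measurableSet_ball ?_
      · exact integrableOn_const (by
          rw [Complex.volume_ball]; exact ENNReal.mul_ne_top (by simp) (by simp))
      · exact hfi.mono_set (hsubB j (Finset.mem_range.1 hj))
      · intro z hz
        exact Real.rpow_le_rpow (hr0 j) (hF5 j z hz) hl.le
    refine (Finset.sum_le_sum e1).trans ?_
    rw [← integral_biUnion_finset (Finset.range N) (fun j _ => measurableSet_ball) ?_ ?_]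
    · refine setIntegral_mono_set hfi (ae_of_all _ hf0) ?_
      refine HasSubset.Subset.eventuallyLE ?_
      exact iUnion₂_subset fun j hj => hsubB j (Finset.mem_range.1 hj)
    · intro i _ j _ hij
      rcases lt_or_gt_of_ne hij with h | h
      · exact hF4 i j h
      · exact (hF4 j i h).symm
    · intro j hj
      exact hfi.mono_set (hsubB j (Finset.mem_range.1 hj))
  -- the path
  have hF7 : ρ / 2 ≤ 384 / 5 * ∑ j ∈ Finset.range N, r j := by
    have e1 : ρ / 2 ≤ ‖ψ (w N) - ψ (w 0)‖ := by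
      have h1 : ρ ≤ ‖ψ (w N) - c‖ := by
        rw [mem_ball, dist_eq_norm, not_lt] at hout
        rw [hw, ht]
        exact hout
      have h2 : ‖ψ (w 0) - c‖ < ρ / 2 := by
        rw [mem_ball, dist_eq_norm] at h0
        rw [hw, ht, pow_zero, one_mul]
        exact h0
      have h3 := norm_add_le (ψ (w N) - ψ (w 0)) (ψ (w 0) - c)
      rw [sub_add_sub_cancel] at h3
      linarith
    have e2 : ‖ψ (w N) - ψ (w 0)‖ ≤ ∑ j ∈ Finset.range N, ‖ψ (w (j + 1)) - ψ (w j)‖ := by
      rw [← Finset.sum_range_sub (fun j => ψ (w j)) N]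
      exact norm_sum_le _ _
    have e3 : ∑ j ∈ Finset.range N, ‖ψ (w (j + 1)) - ψ (w j)‖ ≤
        ∑ j ∈ Finset.range N, 384 / 5 * r j := by
      refine Finset.sum_le_sum fun j _ => ?_
      have h1 := hRAY ψ e (t j) (t (j + 1)) hψ.diff hψ.inj he (htp j) (by
        have := ht2 j (j + 1) (Nat.lt_succ_self j)
        have := htp j
        linarith)
      have h2 : t (j + 1) / t j = 2 := by
        rw [div_eq_iff (htp j).ne', ht, ht, pow_succ]
        ring
      rw [h2, ← hw, ← hw] at h1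
      rw [hr]
      refine h1.trans (le_of_eq ?_)
      ring
    rw [← Finset.mul_sum] at e3
    linarith
  -- conclusion
  have hsum0 : 0 ≤ ∑ j ∈ Finset.range N, r j := Finset.sum_nonneg fun j _ => hr0 j
  have h7 := Real.rpow_sum_le_const_mul_sum_rpow_of_nonneg (Finset.range N) (f := r)
    (p := 2 + l) (by linarith) (fun j _ => hr0 j)
  rw [Finset.card_range] at h7
  have hp1 : (2 + l) - 1 = 1 + l := by ring
  rw [hp1] at h7
  have h8 : (ρ / 200) ^ (2 + l) ≤ (∑ j ∈ Finset.range N, r j) ^ (2 + l) := by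
    refine Real.rpow_le_rpow (by positivity) ?_ (by linarith)
    linarith
  have h9 : (∑ j ∈ Finset.range N, r j ^ (2 + l)) ≤ ∫ z in ball c (2 * ρ), infDist z K ^ l := by
    refine le_trans ?_ h6
    refine Finset.sum_le_sum fun j _ => ?_
    have h10 : 0 ≤ r j ^ (2 + l) := Real.rpow_nonneg (hr0 j) _
    have h11 := Real.pi_gt_three
    nlinarith
  have hρp : 0 < ρ ^ (2 + l) := Real.rpow_pos_of_pos hρ _
  unfold mm
  rw [div_mul_eq_mul_div, le_div_iff₀ hρp]
  have h12 : 1 / (200 : ℝ) ^ (2 + l) * ρ ^ (2 + l) = (ρ / 200) ^ (2 + l) := by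
    rw [Real.div_rpow hρ.le (by norm_num)]
    ring
  rw [h12]
  have hN0 : 0 ≤ (N : ℝ) ^ (1 + l) := by positivity
  calc (ρ / 200) ^ (2 + l) ≤ (∑ j ∈ Finset.range N, r j) ^ (2 + l) := h8
    _ ≤ (N : ℝ) ^ (1 + l) * ∑ j ∈ Finset.range N, r j ^ (2 + l) := h7
    _ ≤ (N : ℝ) ^ (1 + l) * ∫ z in ball c (2 * ρ), infDist z K ^ l :=
        mul_le_mul_of_nonneg_left h9 hN0
    _ = (∫ z in ball c (2 * ρ), infDist z K ^ l) * (N : ℝ) ^ (1 + l) := mul_comm _ _

end Pool.Agent.H637R4.PO
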