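import Pool.Agent.H637R4.PO.Defs1

set_option autoImplicit false

open Complex Topology Filter Metric MeasureTheory Set N62a1eb23
open Pool.Agent.H713R2 Pool.Agent.H713R2.AR Pool.Agent.H712R2

namespace Pool.Agent.H637R4.PO

theorem t_CLO : S_CLO := by
  intro d hd
  have h : multibrotSet d = ⋂ n : ℕ, {c | ‖P d n c‖ ≤ 2} := by
    ext c
    rw [mem_multibrot_iff hd, mem_iInter]
    rfl
  rw [h]
  exact isClosed_iInter fun n => isClosed_le (continuous_P d n).norm continuous_const

end Pool.Agent.H637R4.PO
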