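import Pool.Agent.H637R4.PO.Defs1

/-! CNT: mean porosity at parameters with polynomial decay at all scales. -/

set_option autoImplicit false

open Complex Topology Filter Metric MeasureTheory Set N62a1eb23
open Pool.Agent.H713R2 Pool.Agent.H713R2.AR

namespace Pool.Agent.H637R4.PO

theorem CNT_ext (d : ℕ) (hd : 2 ≤ d) : ∃ ψ, Ext (multibrotSet d) ψ := by
  obtain ⟨β, hβ⟩ := exists_beta hd
  obtain ⟨h1, h2, h3, h4⟩ := exteriorMap_of_beta hβ
  exact ⟨_, h1, h2, h3, h4⟩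

open Classical in
theorem CNT_succ (M : Set ℂ) (c : ℂ) (κ : ℝ) (n : ℕ) :
    cnt M c κ (n + 1) = cnt M c κ n + if Por M c ((1 / 2 : ℝ) ^ n) κ then 1 else 0 := by
  unfold cnt
  rw [Finset.range_add_one, Finset.filter_insert]
  split_ifs with h
  · rw [Finset.card_insert_of_notMem]
    intro h1
    exact Finset.notMem_range_self (Finset.mem_filter.1 h1).1
  · rfl

theorem CNT_le (M : Set ℂ) (c : ℂ) (κ : ℝ) (n : ℕ) : cnt M c κ n ≤ n := by
  induction n with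
  | zero => simp [cnt]
  | succ n ih =>
    rw [CNT_succ]
    split_ifs <;> omega

theorem CNT_bnd_mono {ψ : ℂ → ℂ} {c : ℂ} {ρ ρ' s : ℝ} (h : Bnd ψ c ρ s) (hρ : ρ' ≤ ρ) :
    Bnd ψ c ρ' s := fun w hw hm => h w hw (ball_subset_ball hρ hm)

theorem CNT_iter (hStep : S_STEP) (K : Set ℂ) (ψ : ℂ → ℂ) (hψ : Ext K ψ) (c : ℂ) (θ U : ℝ)
    (hθ : 0 < θ) (h0 : Bnd ψ c 1 U) (k : ℕ) :
    Bnd ψ c ((1 / 2 : ℝ) ^ k) (U * θ ^ (k - cnt K c (5 / 8 * θ ^ 5) k)) := by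
  induction k with
  | zero => simpa using h0
  | succ k ih =>
    have hle := CNT_le K c (5 / 8 * θ ^ 5) k
    have hhalf : ((1 / 2 : ℝ) ^ (k + 1)) ≤ (1 / 2 : ℝ) ^ k := by
      rw [pow_succ]
      have : (0 : ℝ) < (1 / 2 : ℝ) ^ k := by positivity
      linarith
    rw [CNT_succ]
    split_ifs with h
    · have h1 : k + 1 - (cnt K c (5 / 8 * θ ^ 5) k + 1) = k - cnt K c (5 / 8 * θ ^ 5) k := by omega
      rw [h1]
      exact CNT_bnd_mono ih hhalf
    · have h1 : k + 1 - (cnt K c (5 / 8 * θ ^ 5) k + 0) =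
          (k - cnt K c (5 / 8 * θ ^ 5) k) + 1 := by omega
      rw [h1]
      have h2 := hStep K ψ hψ c ((1 / 2 : ℝ) ^ k) _ θ (by positivity) hθ ih h
      have h3 : (1 / 2 : ℝ) ^ (k + 1) = (1 / 2 : ℝ) ^ k / 2 := by rw [pow_succ]; ring
      have h4 : U * θ ^ (k - cnt K c (5 / 8 * θ ^ 5) k + 1) =
          θ * (U * θ ^ (k - cnt K c (5 / 8 * θ ^ 5) k)) := by rw [pow_succ]; ring
      rw [h3, h4]
      exact h2

theorem t_CNT (hStep : S_STEP) (hUB : S_UB) (hArea : S_AREA) (hNrm : S_NRM) : S_CNT := by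
  intro d hd α hα C hC
  obtain ⟨ψ, hψ⟩ := CNT_ext d hd
  obtain ⟨U, hU, hUb⟩ := hUB _ ψ hψ 3
  set θ : ℝ := (1 / 2 : ℝ) ^ (2 / α) with hθd
  have hθ : 0 < θ := Real.rpow_pos_of_pos (by norm_num) _
  have hθ1 : θ < 1 := Real.rpow_lt_one (by norm_num) (by norm_num) (by positivity)
  have hθα : θ ^ α = 1 / 4 := by
    rw [hθd, ← Real.rpow_mul (by norm_num), div_mul_cancel₀ _ hα.ne']
    norm_num
  have hd0 : (0 : ℝ) < d := by
    have : 0 < d := by omega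
    exact_mod_cast this
  have hCd : 0 ≤ Cd d := by
    unfold Cd
    positivity
  set C2 : ℝ := Cd d * (C * (U / d) ^ α) with hC2
  obtain ⟨N1, hN1⟩ := pow_unbounded_of_one_lt C2 (one_lt_two)
  obtain ⟨N2, hN2⟩ := exists_pow_lt_of_lt_one (inv_pos.2 hU) hθ1
  refine ⟨N1 + N2, ?_⟩
  intro c hc hdec n
  have hcn := hNrm d hd c hc
  have h0 : Bnd ψ c 1 U := by
    intro w hw hm
    refine hUb w hw ?_
    rw [mem_ball, dist_eq_norm] at hm
    calc ‖ψ w‖ = ‖(ψ w - c) + c‖ := by rw [sub_add_cancel]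
      _ ≤ ‖ψ w - c‖ + ‖c‖ := norm_add_le _ _
      _ ≤ 3 := by linarith
  have hB := CNT_iter hStep _ ψ hψ c θ U hθ h0 n
  have hle := CNT_le (multibrotSet d) c (5 / 8 * θ ^ 5) n
  set m : ℕ := n - cnt (multibrotSet d) c (5 / 8 * θ ^ 5) n with hm
  have hcnt : (cnt (multibrotSet d) c (5 / 8 * θ ^ 5) n : ℝ) = n - m := by
    have h1 : cnt (multibrotSet d) c (5 / 8 * θ ^ 5) n + m = n := by omega
    have h2 : ((cnt (multibrotSet d) c (5 / 8 * θ ^ 5) n : ℝ)) + m = n := by exact_mod_cast h1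
    linarith
  rw [hcnt]
  have hN1' : (0 : ℝ) ≤ N1 := Nat.cast_nonneg _
  have hN2' : (0 : ℝ) ≤ N2 := Nat.cast_nonneg _
  rcases le_or_gt (U * θ ^ m) 1 with h1 | h1
  · have hpos : 0 < U * θ ^ m := by positivity
    have h2 := hArea d hd ψ hψ c hc ((1 / 2 : ℝ) ^ n) (U * θ ^ m) (by positivity) hpos.le h1 hB
    have hd1 : (1 : ℝ) ≤ d := by
      have : 1 ≤ d := by omega
      exact_mod_cast this
    have h3 : U * θ ^ m / d ∈ Ioc (0 : ℝ) 1 :=
      ⟨by positivity, (div_le_one hd0).2 (h1.trans hd1)⟩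
    have h4 := hdec _ h3
    have h5 : (U * θ ^ m / d) ^ α = (U / d) ^ α * (1 / 4 : ℝ) ^ m := by
      have h6 : U * θ ^ m / d = U / d * θ ^ m := by ring
      rw [h6, Real.mul_rpow (by positivity) (by positivity)]
      congr 1
      rw [← Real.rpow_natCast θ m, ← Real.rpow_mul hθ.le, mul_comm, Real.rpow_mul hθ.le, hθα,
        Real.rpow_natCast]
    have h6 : (1 / 2 : ℝ) ^ n ≤ C2 * (1 / 4 : ℝ) ^ m := by
      calc (1 / 2 : ℝ) ^ n ≤ Cd d * Ar d c (U * θ ^ m / d) := h2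
        _ ≤ Cd d * (C * (U * θ ^ m / d) ^ α) := mul_le_mul_of_nonneg_left h4 hCd
        _ = C2 * (1 / 4 : ℝ) ^ m := by rw [h5, hC2]; ring
    have h7 : (2 : ℝ) ^ (2 * m) ≤ 2 ^ (n + N1) := by
      have h8 : (1 / 2 : ℝ) ^ n ≤ 2 ^ N1 * (1 / 4 : ℝ) ^ m :=
        h6.trans (mul_le_mul_of_nonneg_right hN1.le (by positivity))
      have h9 : (1 / 2 : ℝ) ^ n = ((2 : ℝ) ^ n)⁻¹ := by rw [one_div, inv_pow]
      have h10 : (1 / 4 : ℝ) ^ m = ((2 : ℝ) ^ (2 * m))⁻¹ := by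
        rw [one_div, inv_pow, pow_mul]; norm_num
      rw [h9, h10] at h8
      have hp1 : (0 : ℝ) < 2 ^ n := by positivity
      have hp2 : (0 : ℝ) < 2 ^ (2 * m) := by positivity
      rw [← div_eq_mul_inv, le_div_iff₀ hp2, inv_mul_le_iff₀ hp1] at h8
      rw [pow_add]
      exact h8
    have h8 : 2 * m ≤ n + N1 := by
      by_contra h9
      push Not at h9
      exact absurd h7 (not_le.2 (pow_lt_pow_right₀ (by norm_num) h9))
    have h9 : (2 : ℝ) * m ≤ n + N1 := by exact_mod_cast h8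
    linarith
  · have h2 : m < N2 := by
      by_contra h3
      push Not at h3
      have h4 : θ ^ m ≤ θ ^ N2 := pow_le_pow_of_le_one hθ.le hθ1.le h3
      have h5 : U * θ ^ m ≤ U * U⁻¹ := mul_le_mul_of_nonneg_left (h4.trans hN2.le) hU.le
      rw [mul_inv_cancel₀ hU.ne'] at h5
      linarith
    have h3 : (m : ℝ) ≤ N2 := by exact_mod_cast h2.le
    have h4 : (0 : ℝ) ≤ n := Nat.cast_nonneg _
    linarith

end Pool.Agent.H637R4.PO
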