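import Pool.Agent.H637R4.PO.Defs0

/-! COV: covering numbers of mean porous sets (written by helper420). -/

set_option autoImplicit false

open Complex Topology Filter Metric MeasureTheory Set

namespace Pool.Agent.H637R4.PO

/-- one dimensional subdivision -/
lemma COV_one (x s : ℝ) (L : ℕ) (p : ℤ) (h : ⌊(x - s) * 2 ^ L / 8⌋ = p) :
    ∃ u ∈ Finset.range 16, |x - (s + 8 * (p + (u : ℝ) / 16) / 2 ^ L)| ≤ 1 / 2 * (1 / 2 : ℝ) ^ L := by
  rw [Int.floor_eq_iff] at h
  obtain ⟨h1, h2⟩ := h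
  set y : ℝ := (x - s) * 2 ^ L / 8 with hy
  have hp : (0 : ℝ) < 2 ^ L := by positivity
  have hx : x = s + 8 * y / 2 ^ L := by
    rw [hy]; field_simp; ring
  have h0 : 0 ≤ 16 * (y - p) := by linarith
  have hlt : 16 * (y - p) < 16 := by linarith
  refine ⟨⌊16 * (y - p)⌋₊, ?_, ?_⟩
  · rw [Finset.mem_range]
    rw [Nat.floor_lt h0]
    exact_mod_cast hlt
  · have ha : ((⌊16 * (y - p)⌋₊ : ℕ) : ℝ) ≤ 16 * (y - p) := Nat.floor_le h0
    have hb : 16 * (y - p) < (⌊16 * (y - p)⌋₊ : ℕ) + 1 := Nat.lt_floor_add_one _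
    set u : ℝ := ((⌊16 * (y - p)⌋₊ : ℕ) : ℝ) with hu
    have e1 : x - (s + 8 * (p + u / 16) / 2 ^ L) = (16 * (y - p) - u) / 2 * (1 / 2 : ℝ) ^ L := by
      rw [hx, one_div_pow]; field_simp; ring
    rw [e1, abs_mul, abs_of_nonneg (by positivity : (0 : ℝ) ≤ (1 / 2 : ℝ) ^ L)]
    apply mul_le_mul_of_nonneg_right _ (by positivity)
    rw [abs_le]; constructor <;> linarith

/-- the corner points -/
noncomputable def COV_pt (τ : Bool × Bool) (L : ℕ) (p : ℤ × ℤ) (u : ℕ × ℕ) : ℂ :=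
  ⟨(if τ.1 then 8 / 3 else 0) + 8 * (p.1 + (u.1 : ℝ) / 16) / 2 ^ L,
    (if τ.2 then 8 / 3 else 0) + 8 * (p.2 + (u.2 : ℝ) / 16) / 2 ^ L⟩

lemma COV_cover (τ : Bool × Bool) (L n : ℕ) (hn : n ≤ L) (c : ℂ) :
    ∃ u ∈ Finset.range 16 ×ˢ Finset.range 16,
      dist c (COV_pt τ L (idx τ L c) u) ≤ (1 / 2 : ℝ) ^ n := by
  obtain ⟨u, hu, hu'⟩ := COV_one c.re (if τ.1 then 8 / 3 else 0) L _ rfl
  obtain ⟨v, hv, hv'⟩ := COV_one c.im (if τ.2 then 8 / 3 else 0) L _ rfl
  refine ⟨(u, v), Finset.mem_product.mpr ⟨hu, hv⟩, ?_⟩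
  rw [Complex.dist_eq]
  refine (Complex.norm_le_abs_re_add_abs_im _).trans ?_
  have h3 : (1 / 2 : ℝ) ^ L ≤ (1 / 2 : ℝ) ^ n :=
    pow_le_pow_of_le_one (by norm_num) (by norm_num) hn
  have h4 : |(c - COV_pt τ L (idx τ L c) (u, v)).re| ≤ 1 / 2 * (1 / 2 : ℝ) ^ L := by
    simpa [COV_pt, idx] using hu'
  have h5 : |(c - COV_pt τ L (idx τ L c) (u, v)).im| ≤ 1 / 2 * (1 / 2 : ℝ) ^ L := by
    simpa [COV_pt, idx] using hv'
  linarith

/-- pigeonhole -/
lemma COV_pigeon (h1 : S_HOLE) (κ : ℝ) (J : ℕ) (hκ : 0 < κ) (hJ : 12 ≤ κ * 2 ^ J) (hJ1 : 1 ≤ J)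
    (M : Set ℂ) (n a : ℕ) (c : ℂ) (hc : 4 * J * a ≤ cnt M c κ n) :
    ∃ τ : Bool × Bool, ∃ r < J, ∃ S : Finset ℕ, S ⊆ Finset.range (n / J + 1) ∧ a ≤ S.card ∧
      ∀ i ∈ S, ∃ c' : ℂ, idx τ (r + i * J) c' = idx τ (r + i * J) c ∧
      ∀ z : ℂ, idx τ (r + (i + 1) * J) z = idx τ (r + (i + 1) * J) c' → z ∉ M := by
  classical
  have key : ∀ k : ℕ, ∃ τ : Bool × Bool, Por M c ((1 / 2 : ℝ) ^ k) κ →
      ∃ c' : ℂ, idx τ k c' = idx τ k c ∧
      ∀ z : ℂ, idx τ (k + J) z = idx τ (k + J) c' → z ∉ M := by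
    intro k
    by_cases hk : Por M c ((1 / 2 : ℝ) ^ k) κ
    · obtain ⟨τ, c', h, h'⟩ := h1 κ J hκ hJ M k c hk
      exact ⟨τ, fun _ => ⟨c', h, h'⟩⟩
    · exact ⟨(true, true), fun h => absurd h hk⟩
  choose σ hσ using key
  set s : Finset ℕ := (Finset.range n).filter (fun k => Por M c ((1 / 2 : ℝ) ^ k) κ) with hs
  have hcs : 4 * J * a ≤ s.card := by
    rw [cnt] at hc
    convert hc
  have hmap : ∀ k ∈ s, (σ k, k % J) ∈ (Finset.univ : Finset (Bool × Bool)) ×ˢ Finset.range J := by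
    intro k _
    exact Finset.mem_product.mpr ⟨Finset.mem_univ _, Finset.mem_range.mpr (Nat.mod_lt _ hJ1)⟩
  have hcard : ((Finset.univ : Finset (Bool × Bool)) ×ˢ Finset.range J).card = 4 * J := by
    rw [Finset.card_product]; simp
  obtain ⟨⟨τ, r⟩, hy, hle⟩ := Finset.exists_le_card_fiber_of_mul_le_card_of_maps_to hmap
    (by rw [← Finset.card_pos, hcard]; positivity) (by rw [hcard]; exact hcs)
  have hr : r < J := by
    have := (Finset.mem_product.mp hy).2
    exact Finset.mem_range.mp this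
  refine ⟨τ, r, hr, (s.filter (fun x => (σ x, x % J) = (τ, r))).image (fun k => k / J), ?_, ?_, ?_⟩
  · intro i hi
    obtain ⟨k, hk, rfl⟩ := Finset.mem_image.mp hi
    have hk1 := (Finset.mem_filter.mp hk).1
    have hk2 : k < n := by
      rw [hs] at hk1
      exact Finset.mem_range.mp (Finset.mem_filter.mp hk1).1
    rw [Finset.mem_range]
    exact Nat.lt_succ_of_le (Nat.div_le_div_right hk2.le)
  · rw [Finset.card_image_of_injOn]
    · exact hle
    · intro k hk l hl hkl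
      have hk1 := (Finset.mem_filter.mp hk).2
      have hl1 := (Finset.mem_filter.mp hl).2
      simp only [Prod.mk.injEq] at hk1 hl1
      have e1 := Nat.div_add_mod k J
      have e2 := Nat.div_add_mod l J
      simp only at hkl
      rw [hk1.2, hkl] at e1
      rw [hl1.2] at e2
      omega
  · intro i hi
    obtain ⟨k, hk, rfl⟩ := Finset.mem_image.mp hi
    have hk1 := (Finset.mem_filter.mp hk).2
    simp only [Prod.mk.injEq] at hk1
    have hk3 := (Finset.mem_filter.mp hk).1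
    have hk2 : Por M c ((1 / 2 : ℝ) ^ k) κ := by
      rw [hs] at hk3
      exact (Finset.mem_filter.mp hk3).2
    have e1 : r + k / J * J = k := by
      have := Nat.div_add_mod k J
      rw [hk1.2] at this
      rw [mul_comm (k / J) J]; omega
    have e2 : r + (k / J + 1) * J = k + J := by
      rw [add_mul, one_mul, ← add_assoc, e1]
    rw [e1, e2]
    have := hσ k hk2
    rw [hk1.1] at this
    exact this

theorem t_COV (h1 : S_HOLE) (h2 : S_SQ) : S_COV := by
  classical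
  intro κ hκ hκ1
  obtain ⟨J, hJ0⟩ := pow_unbounded_of_one_lt (12 / κ) (one_lt_two : (1 : ℝ) < 2)
  have hJ : 12 ≤ κ * 2 ^ J := by
    rw [div_lt_iff₀ hκ] at hJ0
    linarith
  have hJ1 : 1 ≤ J := by
    rcases Nat.eq_zero_or_pos J with h | h
    · subst h
      simp at hJ
      linarith
    · exact h
  have hJR : (1 : ℝ) ≤ J := by exact_mod_cast hJ1
  set q : ℝ := ((4 : ℝ) ^ J - 1) / 4 ^ J with hq
  have h4J : (4 : ℝ) ≤ 4 ^ J := by
    calc (4 : ℝ) = 4 ^ 1 := by norm_num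
      _ ≤ 4 ^ J := pow_le_pow_right₀ (by norm_num) hJ1
  have hq34 : 3 / 4 ≤ q := by
    rw [hq, le_div_iff₀ (by positivity)]
    linarith
  have hq0 : 0 < q := by linarith
  have hq1 : q < 1 := by
    rw [hq, div_lt_one (by positivity)]
    linarith
  have hlq : Real.log q < 0 := Real.log_neg hq0 hq1
  have hlq2 : - Real.log q < Real.log 2 := by
    rw [← Real.log_inv]
    apply Real.log_lt_log (by positivity)
    rw [inv_lt_comm₀ hq0 (by norm_num)]
    linarith
  have hl2 : 0 < Real.log 2 := Real.log_pos (by norm_num)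
  set ε : ℝ := - Real.log q / (8 * J * Real.log 2) with hε
  have hε0 : 0 < ε := by
    apply div_pos (by linarith) (by positivity)
  have hε2 : ε < 2 := by
    rw [hε, div_lt_iff₀ (by positivity)]
    nlinarith
  refine ⟨ε, hε0, hε2, ?_⟩
  intro M B hM
  refine ⟨4 * J * 25600 * 4 ^ (2 * J) * q ^ (-B / (4 * J) - 1), by positivity, ?_⟩
  intro n
  set a : ℕ := ⌊((n : ℝ) / 2 - B) / (4 * J)⌋₊ with ha
  have hSQ := fun (y : (Bool × Bool) × ℕ) (hy : y.2 < J) =>
    h2 J hJ1 M hM y.1 y.2 (n / J + 1) a hy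
  have hSQ' : ∀ y : (Bool × Bool) × ℕ, ∃ F : Finset (ℤ × ℤ), y.2 < J →
      (F.card : ℝ) ≤ 100 * 4 ^ y.2 * ((4 : ℝ) ^ J) ^ (n / J + 1) * (((4 : ℝ) ^ J - 1) / 4 ^ J) ^ a ∧
      ∀ c ∈ M, (∃ S : Finset ℕ, S ⊆ Finset.range (n / J + 1) ∧ a ≤ S.card ∧ ∀ i ∈ S, ∃ c' : ℂ,
      idx y.1 (y.2 + i * J) c' = idx y.1 (y.2 + i * J) c ∧
      ∀ z : ℂ, idx y.1 (y.2 + (i + 1) * J) z = idx y.1 (y.2 + (i + 1) * J) c' → z ∉ M) →
      idx y.1 (y.2 + (n / J + 1) * J) c ∈ F := by
    intro y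
    by_cases hy : y.2 < J
    · obtain ⟨F, hF⟩ := hSQ y hy
      exact ⟨F, fun _ => hF⟩
    · exact ⟨∅, fun h => absurd h hy⟩
  choose F hF using hSQ'
  have hdivle : n / J * J ≤ n := Nat.div_mul_le_self n J
  have hdivlt : n < (n / J + 1) * J := by
    have := Nat.lt_div_mul_add (a := n) (b := J) (by omega)
    rw [add_mul, one_mul]; exact this
  refine ⟨((Finset.univ : Finset (Bool × Bool)) ×ˢ Finset.range J).biUnion (fun y =>
    ((F y) ×ˢ (Finset.range 16 ×ˢ Finset.range 16)).image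
      (fun w => COV_pt y.1 (y.2 + (n / J + 1) * J) w.1 w.2)), ?_, ?_⟩
  · have hqa : q ^ a ≤ q ^ (-B / (4 * J) - 1) * (2 : ℝ) ^ (-ε * n) := by
      have e1 : (2 : ℝ) ^ (-ε * n) = q ^ ((n : ℝ) / (8 * J)) := by
        rw [Real.rpow_def_of_pos (by norm_num), Real.rpow_def_of_pos hq0]
        congr 1
        rw [hε]; field_simp
      rw [e1, ← Real.rpow_add hq0, ← Real.rpow_natCast]
      apply Real.rpow_le_rpow_of_exponent_ge hq0 hq1.le
      have := Nat.lt_floor_add_one (((n : ℝ) / 2 - B) / (4 * J))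
      rw [← ha] at this
      have e2 : ((n : ℝ) / 2 - B) / (4 * J) = -B / (4 * J) + (n : ℝ) / (8 * J) := by
        field_simp; ring
      rw [e2] at this
      linarith
    have hFc : ∀ y ∈ (Finset.univ : Finset (Bool × Bool)) ×ˢ Finset.range J,
        ((F y).card : ℝ) ≤ 100 * 4 ^ (2 * J) * 4 ^ n * q ^ a := by
      intro y hy
      have hy2 : y.2 < J := Finset.mem_range.mp (Finset.mem_product.mp hy).2
      refine (hF y hy2).1.trans ?_
      apply mul_le_mul_of_nonneg_right _ (by positivity)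
      rw [mul_assoc, mul_assoc]
      apply mul_le_mul_of_nonneg_left _ (by norm_num)
      rw [← pow_mul, ← pow_add, ← pow_add]
      apply pow_le_pow_right₀ (by norm_num)
      have : J * (n / J + 1) = n / J * J + J := by ring
      omega
    have hcard : ∀ y ∈ (Finset.univ : Finset (Bool × Bool)) ×ˢ Finset.range J,
        ((((F y) ×ˢ (Finset.range 16 ×ˢ Finset.range 16)).image
          (fun w => COV_pt y.1 (y.2 + (n / J + 1) * J) w.1 w.2)).card : ℝ) ≤
          256 * (100 * 4 ^ (2 * J) * 4 ^ n * q ^ a) := by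
      intro y hy
      have h3 : (((F y) ×ˢ (Finset.range 16 ×ˢ Finset.range 16)).image
          (fun w => COV_pt y.1 (y.2 + (n / J + 1) * J) w.1 w.2)).card ≤ (F y).card * 256 := by
        refine Finset.card_image_le.trans ?_
        rw [Finset.card_product, Finset.card_product, Finset.card_range]
      calc _ ≤ (((F y).card * 256 : ℕ) : ℝ) := by exact_mod_cast h3
        _ = 256 * (F y).card := by push_cast; ring
        _ ≤ _ := by
          apply mul_le_mul_of_nonneg_left (hFc y hy) (by norm_num)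
    calc _ ≤ ((∑ y ∈ (Finset.univ : Finset (Bool × Bool)) ×ˢ Finset.range J,
          (((F y) ×ˢ (Finset.range 16 ×ˢ Finset.range 16)).image
          (fun w => COV_pt y.1 (y.2 + (n / J + 1) * J) w.1 w.2)).card : ℕ) : ℝ) := by
            exact_mod_cast Finset.card_biUnion_le
      _ = ∑ y ∈ (Finset.univ : Finset (Bool × Bool)) ×ˢ Finset.range J,
          ((((F y) ×ˢ (Finset.range 16 ×ˢ Finset.range 16)).image
          (fun w => COV_pt y.1 (y.2 + (n / J + 1) * J) w.1 w.2)).card : ℝ) := by push_cast; rfl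
      _ ≤ ∑ _y ∈ (Finset.univ : Finset (Bool × Bool)) ×ˢ Finset.range J,
          256 * (100 * 4 ^ (2 * J) * 4 ^ n * q ^ a) := Finset.sum_le_sum hcard
      _ = 4 * J * 25600 * 4 ^ (2 * J) * (4 ^ n * q ^ a) := by
          rw [Finset.sum_const, Finset.card_product]
          simp only [Finset.card_univ, Fintype.card_prod, Fintype.card_bool, Finset.card_range,
            nsmul_eq_mul]
          push_cast; ring
      _ ≤ 4 * J * 25600 * 4 ^ (2 * J) * (4 ^ n * (q ^ (-B / (4 * J) - 1) * (2 : ℝ) ^ (-ε * n))) := by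
          apply mul_le_mul_of_nonneg_left _ (by positivity)
          apply mul_le_mul_of_nonneg_left hqa (by positivity)
      _ = _ := by
          have e3 : (2 : ℝ) ^ ((2 - ε) * n) = 4 ^ n * (2 : ℝ) ^ (-ε * n) := by
            have : (4 : ℝ) ^ n = (2 : ℝ) ^ ((2 : ℝ) * n) := by
              rw [Real.rpow_mul (by norm_num), Real.rpow_natCast]
              norm_num
            rw [this, ← Real.rpow_add (by norm_num)]
            congr 1; ring
          rw [e3]; ring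
  · intro c hc hcn
    have ha4 : 4 * J * a ≤ cnt M c κ n := by
      rcases le_or_gt 0 (((n : ℝ) / 2 - B) / (4 * J)) with h | h
      · have h3 : (a : ℝ) ≤ ((n : ℝ) / 2 - B) / (4 * J) := Nat.floor_le h
        rw [le_div_iff₀ (by positivity)] at h3
        have h4 : ((4 * J * a : ℕ) : ℝ) ≤ (cnt M c κ n : ℝ) := by
          push_cast; linarith
        exact_mod_cast h4
      · have : a = 0 := by
          rw [ha]; exact Nat.floor_of_nonpos h.le
        rw [this]; simp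
    obtain ⟨τ, r, hr, S, hS1, hS2, hS3⟩ := COV_pigeon h1 κ J hκ hJ hJ1 M n a c ha4
    have hmem := (hF (τ, r) hr).2 c hc ⟨S, hS1, hS2, hS3⟩
    obtain ⟨u, hu, hu'⟩ := COV_cover τ (r + (n / J + 1) * J) n (by omega) c
    refine ⟨_, ?_, hu'⟩
    rw [Finset.mem_biUnion]
    refine ⟨(τ, r), Finset.mem_product.mpr ⟨Finset.mem_univ _, Finset.mem_range.mpr hr⟩, ?_⟩
    rw [Finset.mem_image]
    exact ⟨(idx τ (r + (n / J + 1) * J) c, u), Finset.mem_product.mpr ⟨hmem, hu⟩, rfl⟩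

end Pool.Agent.H637R4.PO
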