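import Pool.Agent.H637R4.PO.Defs1

set_option autoImplicit false

open Complex Topology Filter Metric MeasureTheory Set N62a1eb23
open Pool.Agent.H713R2 Pool.Agent.H713R2.AR

namespace Pool.Agent.H637R4.PO

theorem t_DIM (h1 : S_CNT) (h2 : S_COV) (h3 : S_HD) (h4 : S_NRM) : S_DIM := by
  intro α hα
  have hθ0 : (0 : ℝ) < (1 / 2 : ℝ) ^ (2 / α) := Real.rpow_pos_of_pos (by norm_num) _
  have hθ1 : (1 / 2 : ℝ) ^ (2 / α) < 1 :=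
    Real.rpow_lt_one (by norm_num) (by norm_num) (by positivity)
  have hκ0 : (0 : ℝ) < 5 / 8 * ((1 / 2 : ℝ) ^ (2 / α)) ^ 5 := by positivity
  have hκ1 : 5 / 8 * ((1 / 2 : ℝ) ^ (2 / α)) ^ 5 < 1 := by
    have : ((1 / 2 : ℝ) ^ (2 / α)) ^ 5 ≤ 1 := pow_le_one₀ hθ0.le hθ1.le
    linarith
  obtain ⟨ε, hε0, hε2, hcov⟩ := h2 _ hκ0 hκ1
  refine ⟨ε, hε0, ?_⟩
  intro d hd
  have hsub : multibrotSet d ⊆ closedBall (0 : ℂ) 2 := by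
    intro c hc
    rw [mem_closedBall_zero_iff]
    exact h4 d hd c hc
  have first : ∀ C : ℝ, 0 < C → ∃ K : ℝ, 0 < K ∧ ∀ n : ℕ, ∃ T : Finset ℂ,
      (T.card : ℝ) ≤ K * (2 : ℝ) ^ ((2 - ε) * n) ∧
      ∀ c ∈ multibrotSet d, (∀ s ∈ Ioc (0 : ℝ) 1, Ar d c s ≤ C * s ^ α) →
        ∃ x ∈ T, dist c x ≤ (1 / 2 : ℝ) ^ n := by
    intro C hC
    obtain ⟨B, hB⟩ := h1 d hd α hα C hC
    obtain ⟨K, hK, hT⟩ := hcov (multibrotSet d) B hsub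
    refine ⟨K, hK, fun n => ?_⟩
    obtain ⟨T, hTc, hT2⟩ := hT n
    exact ⟨T, hTc, fun c hc hs => hT2 c hc (hB c hc hs n)⟩
  refine ⟨first, ?_⟩
  have hU : {c : ℂ | c ∈ multibrotSet d ∧ ∃ C : ℝ, ∀ s ∈ Ioc (0 : ℝ) 1, Ar d c s ≤ C * s ^ α} ⊆
      ⋃ N : ℕ, {c : ℂ | c ∈ multibrotSet d ∧
        ∀ s ∈ Ioc (0 : ℝ) 1, Ar d c s ≤ ((N : ℝ) + 1) * s ^ α} := by
    rintro c ⟨hc, C, hC⟩
    rw [mem_iUnion]
    refine ⟨⌈C⌉₊, hc, fun s hs => (hC s hs).trans ?_⟩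
    have h5 : C ≤ (⌈C⌉₊ : ℝ) := Nat.le_ceil C
    exact mul_le_mul_of_nonneg_right (by linarith) (Real.rpow_nonneg hs.1.le _)
  refine (dimH_mono hU).trans ?_
  rw [dimH_iUnion]
  refine iSup_le fun N => ?_
  obtain ⟨K, hK, hT⟩ := first ((N : ℝ) + 1) (by positivity)
  refine h3 _ (2 - ε) K (by linarith) fun n => ?_
  obtain ⟨T, hTc, hT2⟩ := hT n
  exact ⟨T, hTc, fun c hc => hT2 c hc.1 hc.2⟩

end Pool.Agent.H637R4.PO
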