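import Mathlib

/-! Porosity of the Multibrot sets at parameters whose Green sublevel areas decay polynomially
(helper637). Part 0: statements (Props) that only need Mathlib. -/

set_option autoImplicit false

open Complex Topology Filter Metric MeasureTheory Set

namespace Pool.Agent.H637R4.PO

/-- `ψ` is a conformal isomorphism from the exterior of the closed unit disc onto the complement
of `K`, normalised by `ψ z / z → 1` at infinity. -/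
structure Ext (K : Set ℂ) (ψ : ℂ → ℂ) : Prop where
  diff : DifferentiableOn ℂ ψ {z | 1 < ‖z‖}
  inj : InjOn ψ {z | 1 < ‖z‖}
  image : ψ '' {z | 1 < ‖z‖} = Kᶜ
  infinity : Tendsto (fun z => ψ z / z) (Bornology.cobounded ℂ) (𝓝 1)

/-- `M` has a hole of relative size `κ` at scale `ρ` near `c`. -/
def Por (M : Set ℂ) (c : ℂ) (ρ κ : ℝ) : Prop :=
  ∃ c' ∈ ball c ρ, Disjoint (ball c' (κ * ρ)) M

/-- `‖w‖ - 1 ≤ s` whenever `ψ w` lies in the disc `ball c ρ`. -/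
def Bnd (ψ : ℂ → ℂ) (c : ℂ) (ρ s : ℝ) : Prop :=
  ∀ w : ℂ, 1 < ‖w‖ → ψ w ∈ ball c ρ → ‖w‖ - 1 ≤ s

/-- KB: Koebe, second coefficient (already proved: `Pool.Agent.H792R2.SS.t_KB`). -/
def S_KB : Prop := ∀ (φ : ℂ → ℂ) (z : ℂ) (R : ℝ), 0 < R → DifferentiableOn ℂ φ (ball z R) →
  InjOn φ (ball z R) → deriv φ z ≠ 0 ∧ R * ‖deriv (deriv φ) z‖ ≤ 4 * ‖deriv φ z‖

/-- QT: Koebe quarter theorem. -/
def S_QT : Prop := ∀ (φ : ℂ → ℂ) (z v : ℂ) (R : ℝ), 0 < R → DifferentiableOn ℂ φ (ball z R) →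
  InjOn φ (ball z R) → v ∉ φ '' ball z R → R * ‖deriv φ z‖ ≤ 4 * ‖v - φ z‖

/-- RAY: distortion along a ray of an exterior map. -/
def S_RAY : Prop := ∀ (ψ : ℂ → ℂ) (e : ℂ) (x y : ℝ), DifferentiableOn ℂ ψ {z | 1 < ‖z‖} →
  InjOn ψ {z | 1 < ‖z‖} → ‖e‖ = 1 → 0 < x → x ≤ y →
  ‖ψ ((1 + y : ℝ) * e) - ψ ((1 + x : ℝ) * e)‖ ≤
    x * ‖deriv ψ ((1 + x : ℝ) * e)‖ * (y / x) ^ 5 / 5

/-- ESC: a point where `‖w‖ - 1` is comparable with its supremum on a disc is far from `K`. -/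
def S_ESC : Prop := ∀ (K : Set ℂ) (ψ : ℂ → ℂ), Ext K ψ → ∀ (w : ℂ) (θ R : ℝ), 1 < ‖w‖ →
  0 < θ → 0 < R → (∀ w' : ℂ, 1 < ‖w'‖ → ψ w' ∈ ball (ψ w) R → θ * (‖w'‖ - 1) ≤ ‖w‖ - 1) →
  ∀ m ∈ K, 5 / 4 * θ ^ 5 * R ≤ ‖m - ψ w‖

/-- STEP: no hole at scale `ρ` implies decay of `‖w‖ - 1`. -/
def S_STEP : Prop := ∀ (K : Set ℂ) (ψ : ℂ → ℂ), Ext K ψ → ∀ (c : ℂ) (ρ s θ : ℝ), 0 < ρ →
  0 < θ → Bnd ψ c ρ s → ¬ Por K c ρ (5 / 8 * θ ^ 5) → Bnd ψ c (ρ / 2) (θ * s)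

/-- UB: local boundedness. -/
def S_UB : Prop := ∀ (K : Set ℂ) (ψ : ℂ → ℂ), Ext K ψ → ∀ A : ℝ, ∃ U : ℝ, 0 < U ∧
  ∀ w : ℂ, 1 < ‖w‖ → ‖ψ w‖ ≤ A → ‖w‖ - 1 ≤ U

/-- LEB: a closed set is almost nowhere porous. -/
def S_LEB : Prop := ∀ K : Set ℂ, IsClosed K → ∀ᵐ c ∂(volume.restrict K), ∀ κ : ℝ, 0 < κ →
  ∃ ρ₁ : ℝ, 0 < ρ₁ ∧ ∀ ρ ∈ Ioo 0 ρ₁, ¬ Por K c ρ κ

open Classical in
/-- number of porous scales among `1, 1/2, .., (1/2)^(n-1)` -/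
noncomputable def cnt (M : Set ℂ) (c : ℂ) (κ : ℝ) (n : ℕ) : ℕ :=
  ((Finset.range n).filter (fun k => Por M c ((1 / 2 : ℝ) ^ k) κ)).card

/-- TREE: counting vertices of a tree with many good ancestors. `gc` counts the good ancestors. -/
def gc {X : Type} (par : ℕ → X → X) (G : ℕ → X → Bool) : ℕ → X → ℕ
  | 0, _ => 0
  | t + 1, v => gc par G t (par t v) + (if G t (par t v) then 1 else 0)

def S_TREE : Prop := ∀ (X : Type) [DecidableEq X] (A : ℕ) (V : ℕ → Finset X) (par : ℕ → X → X)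
  (G : ℕ → X → Bool), 2 ≤ A → (∀ t, ∀ v ∈ V (t + 1), par t v ∈ V t) →
  (∀ t, ∀ v ∈ V t, ((V (t + 1)).filter (fun u => par t u = v)).card ≤ A) →
  (∀ t, ∀ v ∈ V t, G t v = true → ((V (t + 1)).filter (fun u => par t u = v)).card ≤ A - 1) →
  ∀ t a : ℕ, (((V t).filter (fun v => a ≤ gc par G t v)).card : ℝ) ≤
    (V 0).card * (A : ℝ) ^ t * (((A : ℝ) - 1) / A) ^ a

/-- index of the half open square of side `8 * 2^(-k)` of the grid shifted by `(8/3) * (i, j)`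
that contains `c` -/
noncomputable def idx (τ : Bool × Bool) (k : ℕ) (c : ℂ) : ℤ × ℤ :=
  (⌊(c.re - if τ.1 then 8 / 3 else 0) * 2 ^ k / 8⌋, ⌊(c.im - if τ.2 then 8 / 3 else 0) * 2 ^ k / 8⌋)

/-- THIRD: the one third trick. -/
def S_THIRD : Prop := ∀ (k : ℕ) (c : ℂ), ∃ τ : Bool × Bool, ∀ c' ∈ ball c ((1 / 2 : ℝ) ^ k),
  idx τ k c' = idx τ k c

/-- HOLE: a porous scale gives a hole in a square. `J` steps below. -/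
def S_HOLE : Prop := ∀ (κ : ℝ) (J : ℕ), 0 < κ → 12 ≤ κ * 2 ^ J → ∀ (M : Set ℂ) (k : ℕ) (c : ℂ),
  Por M c ((1 / 2 : ℝ) ^ k) κ → ∃ (τ : Bool × Bool) (c' : ℂ), idx τ k c' = idx τ k c ∧
    ∀ z : ℂ, idx τ (k + J) z = idx τ (k + J) c' → z ∉ M

/-- SQ: squares with many good ancestors in one residue class (one grid). -/
def S_SQ : Prop := ∀ (J : ℕ), 1 ≤ J → ∀ (M : Set ℂ), M ⊆ closedBall 0 2 → ∀ (τ : Bool × Bool)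
  (r t a : ℕ), r < J → ∃ F : Finset (ℤ × ℤ),
  (F.card : ℝ) ≤ 100 * 4 ^ r * ((4 : ℝ) ^ J) ^ t * (((4 : ℝ) ^ J - 1) / 4 ^ J) ^ a ∧
  ∀ c ∈ M, (∃ S : Finset ℕ, S ⊆ Finset.range t ∧ a ≤ S.card ∧ ∀ i ∈ S, ∃ c' : ℂ,
      idx τ (r + i * J) c' = idx τ (r + i * J) c ∧
      ∀ z : ℂ, idx τ (r + (i + 1) * J) z = idx τ (r + (i + 1) * J) c' → z ∉ M) →
    idx τ (r + t * J) c ∈ F

/-- COV: covering numbers of mean porous sets. -/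
def S_COV : Prop := ∀ κ : ℝ, 0 < κ → κ < 1 → ∃ ε : ℝ, 0 < ε ∧ ε < 2 ∧ ∀ (M : Set ℂ) (B : ℝ),
  M ⊆ closedBall 0 2 → ∃ K : ℝ, 0 < K ∧ ∀ n : ℕ, ∃ T : Finset ℂ,
    (T.card : ℝ) ≤ K * (2 : ℝ) ^ ((2 - ε) * n) ∧
    ∀ c ∈ M, (n : ℝ) / 2 - B ≤ cnt M c κ n → ∃ x ∈ T, dist c x ≤ (1 / 2 : ℝ) ^ n

/-- HD: covering numbers bound the Hausdorff dimension. -/
def S_HD : Prop := ∀ (E : Set ℂ) (s K : ℝ), 0 ≤ s → (∀ n : ℕ, ∃ T : Finset ℂ,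
    (T.card : ℝ) ≤ K * (2 : ℝ) ^ (s * n) ∧ ∀ c ∈ E, ∃ x ∈ T, dist c x ≤ (1 / 2 : ℝ) ^ n) →
  dimH E ≤ ENNReal.ofReal s

end Pool.Agent.H637R4.PO
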