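import Mathlib
import Pool.Prelude.Def_F_c31e40fa
import Pool.Agent.H713R2.AR.PR
import Pool.Agent.H637R4.PO.Defs0

/-! Porosity of the Multibrot sets (helper637). Part 1: statements about the Multibrot sets. -/

set_option autoImplicit false

open Complex Topology Filter Metric MeasureTheory Set N62a1eb23
open Pool.Agent.H713R2 Pool.Agent.H713R2.AR

namespace Pool.Agent.H637R4.PO

/-- the constant of the area inequality -/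
noncomputable def Cd (d : ℕ) : ℝ := d / Real.pi * (4 * Real.exp 1) ^ (d - 2)

/-- area of a sublevel set of the escape rate of `z ↦ z ^ d + c` -/
noncomputable def Ar (d : ℕ) (c : ℂ) (s : ℝ) : ℝ := (volume {z : ℂ | green d c z ≤ s}).toReal

/-- GRM: the escape rate of the critical value vanishes on the Multibrot set. -/
def S_GRM : Prop := ∀ d : ℕ, 2 ≤ d → ∀ c ∈ multibrotSet d, green d c c = 0

/-- NRM: the Multibrot sets lie in the disc of radius 2. -/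
def S_NRM : Prop := ∀ d : ℕ, 2 ≤ d → ∀ c ∈ multibrotSet d, ‖c‖ ≤ 2

/-- STAR: the inequality between the parameter plane and the dynamical plane. -/
def S_STAR : Prop := ∀ d a b : ℕ, a + b + 2 = d → ∀ ψ : ℂ → ℂ, Ext (multibrotSet d) ψ →
  ∀ (c : ℂ) (ρ s : ℝ), 0 < ρ → 0 ≤ s → Bnd ψ c ρ s →
  ρ ≤ d / Real.pi * √((∫ z in GLev d c (s / d), ‖z‖ ^ (2 * a)) *
    ∫ z in GLev d c (s / d), ‖z‖ ^ (2 * b))

/-- AREA: the same with the area. -/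
def S_AREA : Prop := ∀ d : ℕ, 2 ≤ d → ∀ ψ : ℂ → ℂ, Ext (multibrotSet d) ψ →
  ∀ c ∈ multibrotSet d, ∀ ρ s : ℝ, 0 < ρ → 0 ≤ s → s ≤ 1 → Bnd ψ c ρ s → ρ ≤ Cd d * Ar d c (s / d)

/-- POR: porosity at parameters with polynomial decay along a sequence. -/
def S_POR : Prop := ∀ d : ℕ, 2 ≤ d → ∀ c ∈ multibrotSet d, ∀ α : ℝ, 0 < α →
  (∀ δ : ℝ, 0 < δ → ∀ s₁ : ℝ, 0 < s₁ → ∃ s ∈ Ioo 0 s₁, Ar d c s ≤ δ * s ^ α) →
  ∀ ρ₁ : ℝ, 0 < ρ₁ → ∃ ρ ∈ Ioo 0 ρ₁, Por (multibrotSet d) c ρ (5 / 8 * ((1 / 2 : ℝ) ^ (1 / α)) ^ 5)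

/-- CLO: the Multibrot sets are closed. -/
def S_CLO : Prop := ∀ d : ℕ, 2 ≤ d → IsClosed (multibrotSet d)

/-- AE: slow decay at almost every parameter. -/
def S_AE : Prop := ∀ d : ℕ, 2 ≤ d → ∀ᵐ c ∂(volume.restrict (multibrotSet d)), ∀ α : ℝ, 0 < α →
  ∃ s₀ : ℝ, 0 < s₀ ∧ ∀ s ∈ Ioo 0 s₀, s ^ α ≤ Ar d c s

/-- CNT: mean porosity at parameters with polynomial decay at all scales. -/
def S_CNT : Prop := ∀ d : ℕ, 2 ≤ d → ∀ α : ℝ, 0 < α → ∀ C : ℝ, 0 < C → ∃ B : ℝ,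
  ∀ c ∈ multibrotSet d, (∀ s ∈ Ioc (0 : ℝ) 1, Ar d c s ≤ C * s ^ α) →
  ∀ n : ℕ, (n : ℝ) / 2 - B ≤ cnt (multibrotSet d) c (5 / 8 * ((1 / 2 : ℝ) ^ (2 / α)) ^ 5) n

/-- DIM: the final dimension estimate. -/
def S_DIM : Prop := ∀ α : ℝ, 0 < α → ∃ ε : ℝ, 0 < ε ∧ ∀ d : ℕ, 2 ≤ d →
  (∀ C : ℝ, 0 < C → ∃ K : ℝ, 0 < K ∧ ∀ n : ℕ, ∃ T : Finset ℂ, (T.card : ℝ) ≤ K * (2 : ℝ) ^ ((2 - ε) * n) ∧
    ∀ c ∈ multibrotSet d, (∀ s ∈ Ioc (0 : ℝ) 1, Ar d c s ≤ C * s ^ α) →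
      ∃ x ∈ T, dist c x ≤ (1 / 2 : ℝ) ^ n) ∧
  dimH {c : ℂ | c ∈ multibrotSet d ∧ ∃ C : ℝ, ∀ s ∈ Ioc (0 : ℝ) 1, Ar d c s ≤ C * s ^ α} ≤
    ENNReal.ofReal (2 - ε)

end Pool.Agent.H637R4.PO
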