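import Pool.Agent.H637R4.PO.Defs0

/-! Porosity of the Multibrot sets (helper637). Part 2: channels instead of holes; a stronger
almost everywhere statement. -/

set_option autoImplicit false

open Complex Topology Filter Metric MeasureTheory Set

namespace Pool.Agent.H637R4.PO

/-- normalised integral of a power of the distance to `K` near `c` at scale `ρ` -/
noncomputable def mm (K : Set ℂ) (l : ℝ) (c : ℂ) (ρ : ℝ) : ℝ :=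
  (∫ z in ball c (2 * ρ), (infDist z K) ^ l) / ρ ^ (2 + l)

/-- BALLS: a channel contains many disjoint discs. -/
def S_BALLS : Prop := ∀ (K : Set ℂ) (ψ : ℂ → ℂ), Ext K ψ → ∀ (c e : ℂ) (x ρ l : ℝ) (N : ℕ),
  c ∈ K → ‖e‖ = 1 → 0 < x → 0 < ρ → 0 < l → ψ ((1 + x : ℝ) * e) ∈ ball c (ρ / 2) →
  (∀ j < N, ψ ((1 + 2 ^ j * x : ℝ) * e) ∈ ball c ρ) →
  ψ ((1 + 2 ^ N * x : ℝ) * e) ∉ ball c ρ →
  1 / (200 : ℝ) ^ (2 + l) ≤ mm K l c ρ * (N : ℝ) ^ (1 + l)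

/-- STEP2: decay of `‖w‖ - 1` in terms of the size of the complement. -/
def S_STEP2 : Prop := ∀ (K : Set ℂ) (ψ : ℂ → ℂ), Ext K ψ → ∀ (c : ℂ) (ρ s l : ℝ), c ∈ K →
  0 < ρ → 0 < s → 0 < l → 0 < mm K l c ρ → Bnd ψ c ρ s →
  Bnd ψ c (ρ / 2) (2 * s * (2 : ℝ) ^ (-((1 / (200 : ℝ) ^ (2 + l) / mm K l c ρ) ^ (1 / (1 + l)))))

/-- MARC: the integral of Marcinkiewicz. -/
def S_MARC : Prop := ∀ K : Set ℂ, IsClosed K → K ⊆ closedBall 0 2 → K.Nonempty →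
  ∀ l : ℝ, 0 < l → l ≤ 1 →
  ∀ᵐ c ∂(volume.restrict K), Summable (fun k : ℕ => mm K l c ((1 / 2 : ℝ) ^ k))

/-- SUML: Hölder's inequality. -/
def S_SUML : Prop := ∀ (l a B : ℝ) (m : ℕ → ℝ) (n : ℕ), 0 < l → 0 < a → 0 < B →
  (∀ k < n, 0 < m k) → ∑ k ∈ Finset.range n, m k ≤ B →
  (a / B) ^ (1 / (1 + l)) * (n : ℝ) ^ ((2 + l) / (1 + l)) ≤
    ∑ k ∈ Finset.range n, (a / m k) ^ (1 / (1 + l))

/-- the bound after `n` steps -/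
noncomputable def sb (U b l : ℝ) (n : ℕ) : ℝ :=
  U * 2 ^ n * (2 : ℝ) ^ (-(b * (n : ℝ) ^ ((2 + l) / (1 + l))))

/-- ITER: iteration of STEP2. -/
def S_ITER : Prop := ∀ (K : Set ℂ) (ψ : ℂ → ℂ), Ext K ψ → ∀ (c : ℂ) (U l B : ℝ), c ∈ K → 0 < U →
  0 < l → 0 < B → Bnd ψ c 1 U → (∀ k : ℕ, 0 < mm K l c ((1 / 2 : ℝ) ^ k)) →
  (∀ n : ℕ, ∑ k ∈ Finset.range n, mm K l c ((1 / 2 : ℝ) ^ k) ≤ B) →
  ∃ b : ℝ, 0 < b ∧ ∀ n : ℕ, Bnd ψ c ((1 / 2 : ℝ) ^ n) (sb U b l n)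

/-- ASY: choice of `n`. -/
def S_ASY : Prop := ∀ (A : ℝ → ℝ) (U C b l β D : ℝ), 0 < U → 0 < C → 0 < b → 0 < l → 0 < D →
  (1 + l) / (2 + l) < β → (∀ s t : ℝ, 0 ≤ s → s ≤ t → A s ≤ A t) →
  (∀ n : ℕ, sb U b l n ≤ 1 → (1 / 2 : ℝ) ^ n ≤ C * A (sb U b l n / D)) →
  ∃ s₀ : ℝ, 0 < s₀ ∧ ∀ s ∈ Ioo 0 s₀, Real.exp (-(Real.log (1 / s)) ^ β) ≤ A s

/-- NUL: no complement near `c`. -/
def S_NUL : Prop := ∀ K : Set ℂ, IsClosed K → ∀ (c : ℂ) (ρ l : ℝ), c ∈ K → 0 < ρ → 0 < l →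
  mm K l c ρ ≤ 0 → ball c (2 * ρ) ⊆ K

end Pool.Agent.H637R4.PO
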