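import Pool.Agent.H637R4.PO.Defs1
import Pool.Agent.H637R4.PO.Defs2

set_option autoImplicit false

open Complex Topology Filter Metric MeasureTheory Set N62a1eb23
open Pool.Agent.H713R2 Pool.Agent.H713R2.AR

namespace Pool.Agent.H637R4.PO

/-- MONO: the area is monotone. -/
def S_MONO : Prop := ∀ d : ℕ, 2 ≤ d → ∀ c ∈ multibrotSet d, ∀ s t : ℝ, s ≤ t → Ar d c s ≤ Ar d c t

/-- AE2: slow decay at almost every parameter. -/
def S_AE2 : Prop := ∀ d : ℕ, 2 ≤ d → ∀ᵐ c ∂(volume.restrict (multibrotSet d)), ∀ β : ℝ, 1 / 2 < β →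
  ∃ s₀ : ℝ, 0 < s₀ ∧ ∀ s ∈ Ioo 0 s₀, Real.exp (-(Real.log (1 / s)) ^ β) ≤ Ar d c s

end Pool.Agent.H637R4.PO
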