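import Pool.Agent.H637R4.PO.Defs0

set_option autoImplicit false

open Complex Topology Filter Metric MeasureTheory Set

namespace Pool.Agent.H637R4.PO

theorem t_ESC (hQT : S_QT) (hRAY : S_RAY) : S_ESC := by
  intro K ψ hE w θ R hw hθ hR hyp m hm
  set x : ℝ := ‖w‖ - 1 with hx
  have hx0 : 0 < x := by rw [hx]; linarith
  have hw0 : (0 : ℝ) < ‖w‖ := by linarith
  set e : ℂ := ((‖w‖⁻¹ : ℝ) : ℂ) * w with he
  have hen : ‖e‖ = 1 := by
    rw [he, norm_mul, Complex.norm_real, Real.norm_eq_abs, abs_of_pos (inv_pos.2 hw0)]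
    exact inv_mul_cancel₀ hw0.ne'
  have hwe : ((1 + x : ℝ) : ℂ) * e = w := by
    have h1 : (1 + x : ℝ) = ‖w‖ := by rw [hx]; ring
    rw [h1, he, ← mul_assoc, ← Complex.ofReal_mul, mul_inv_cancel₀ hw0.ne']
    simp
  -- `θ ≤ 1`
  have hθ1 : θ ≤ 1 := by
    have h1 := hyp w hw (mem_ball_self hR)
    by_contra hc
    push Not at hc
    nlinarith
  -- the quarter theorem
  have hsub : ball w x ⊆ {z : ℂ | 1 < ‖z‖} := by
    intro z hz
    rw [mem_ball, dist_comm, dist_eq_norm] at hz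
    have h1 := norm_sub_norm_le w z
    show 1 < ‖z‖
    linarith
  have hq : x * ‖deriv ψ w‖ ≤ 4 * ‖m - ψ w‖ := by
    refine hQT ψ w m x hx0 (hE.diff.mono hsub) (hE.inj.mono hsub) ?_
    intro h
    have h1 : m ∈ ψ '' {z : ℂ | 1 < ‖z‖} := image_mono hsub h
    rw [hE.image] at h1
    exact h1 hm
  -- the estimate for all `η > 0`
  have key : ∀ η : ℝ, 0 < η → R ≤ 4 / 5 * ‖m - ψ w‖ * ((1 + η) / θ) ^ 5 := by
    intro η hη
    set y : ℝ := x * ((1 + η) / θ) with hy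
    have h1 : 1 ≤ (1 + η) / θ := by
      rw [le_div_iff₀ hθ]
      linarith
    have hxy : x ≤ y := by
      rw [hy]
      nlinarith
    have hy0 : 0 < y := lt_of_lt_of_le hx0 hxy
    have hn : ‖((1 + y : ℝ) : ℂ) * e‖ = 1 + y := by
      rw [norm_mul, hen, mul_one, Complex.norm_real, Real.norm_eq_abs, abs_of_pos (by linarith)]
    have h2 : ψ (((1 + y : ℝ) : ℂ) * e) ∉ ball (ψ w) R := by
      intro h
      have h3 := hyp _ (by rw [hn]; linarith) h
      rw [hn] at h3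
      have h4 : θ * (1 + y - 1) = x * (1 + η) := by
        rw [hy]
        field_simp
        ring
      rw [h4] at h3
      nlinarith
    have h5 : R ≤ ‖ψ (((1 + y : ℝ) : ℂ) * e) - ψ w‖ := by
      rw [mem_ball, dist_eq_norm, not_lt] at h2
      exact h2
    have h6 := hRAY ψ e x y hE.diff hE.inj hen hx0 hxy
    rw [hwe] at h6
    have h7 : y / x = (1 + η) / θ := by
      rw [hy]
      field_simp
    rw [h7] at h6
    have h8 : 0 ≤ ((1 + η) / θ) ^ 5 := by positivity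
    calc R ≤ _ := h5
      _ ≤ _ := h6
      _ ≤ 4 * ‖m - ψ w‖ * ((1 + η) / θ) ^ 5 / 5 := by
        have := mul_le_mul_of_nonneg_right hq h8
        linarith
      _ = _ := by ring
  have hlim : R ≤ 4 / 5 * ‖m - ψ w‖ * ((1 + 0) / θ) ^ 5 := by
    have hc : Continuous (fun η : ℝ => 4 / 5 * ‖m - ψ w‖ * ((1 + η) / θ) ^ 5) := by fun_prop
    have ht : Tendsto (fun η : ℝ => 4 / 5 * ‖m - ψ w‖ * ((1 + η) / θ) ^ 5) (𝓝[>] 0)
        (𝓝 (4 / 5 * ‖m - ψ w‖ * ((1 + 0) / θ) ^ 5)) := (hc.tendsto 0).mono_left nhdsWithin_le_nhds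
    refine ge_of_tendsto ht ?_
    filter_upwards [self_mem_nhdsWithin] with η hη
    exact key η hη
  have h9 : ((1 + 0) / θ) ^ 5 = (θ ^ 5)⁻¹ := by
    rw [add_zero, one_div, inv_pow]
  rw [h9] at hlim
  have h10 : 0 < θ ^ 5 := by positivity
  have h11 : R * θ ^ 5 ≤ 4 / 5 * ‖m - ψ w‖ := by
    have h12 := mul_le_mul_of_nonneg_right hlim h10.le
    rw [mul_assoc, inv_mul_cancel₀ h10.ne', mul_one] at h12
    exact h12
  linarith

end Pool.Agent.H637R4.PO
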