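import Pool.Agent.H637R4.PO.Defs1

set_option autoImplicit false

open Complex Topology Filter Metric MeasureTheory Set N62a1eb23
open Pool.Agent.H713R2 Pool.Agent.H713R2.AR

namespace Pool.Agent.H637R4.PO

theorem t_GRM : S_GRM := by
  intro d hd c hc
  have h := (Pool.Agent.H712R2.mem_multibrot_iff hd c).mp hc
  have hd1 : (1 : ℝ) < d := by exact_mod_cast (by omega : 1 < d)
  have hit : ∀ n : ℕ, ‖(fun w : ℂ => w ^ d + c)^[n] c‖ ≤ 2 := by
    intro n
    have h1 : (fun w : ℂ => w ^ d + c)^[n] c = (fun w : ℂ => w ^ d + c)^[n + 1] 0 := by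
      rw [Function.iterate_succ_apply]
      congr 1
      show c = (0 : ℂ) ^ d + c
      rw [zero_pow (by omega), zero_add]
    have h2 := h (n + 1)
    have h3 : ((fun w : ℂ => w ^ d + c)^[n + 1] 0) = Pool.Agent.H712R2.P d (n + 1) c := rfl
    rw [h1, h3]
    exact h2
  unfold green
  apply Tendsto.limsup_eq
  have hlim : Tendsto (fun n : ℕ => Real.log 2 / (d : ℝ) ^ n) atTop (𝓝 0) := by
    have h1 := (tendsto_pow_atTop_nhds_zero_of_lt_one (r := (d : ℝ)⁻¹) (by positivity)
      (inv_lt_one_of_one_lt₀ hd1)).const_mul (Real.log 2)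
    rw [mul_zero] at h1
    refine h1.congr fun n => ?_
    rw [inv_pow, div_eq_mul_inv]
  refine squeeze_zero (fun n => ?_) (fun n => ?_) hlim
  · exact div_nonneg Real.posLog_nonneg (by positivity)
  · apply div_le_div_of_nonneg_right _ (by positivity)
    have h4 := Real.posLog_le_posLog (norm_nonneg _) (hit n)
    rwa [Real.posLog_eq_log (x := 2) (by norm_num)] at h4

end Pool.Agent.H637R4.PO
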