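import Pool.Agent.H637R4.PO.Defs0

/-! HD: covering numbers bound the Hausdorff dimension. -/

set_option autoImplicit false

open Complex Topology Filter Metric MeasureTheory Set

namespace Pool.Agent.H637R4.PO

open scoped ENNReal NNReal in
theorem t_HD : S_HD := by
  intro E s K hs h
  choose T hT hE using h
  have hK : 0 ≤ K := by
    have h1 := hT 0
    simp only [Nat.cast_zero, mul_zero, Real.rpow_zero, mul_one] at h1
    exact le_trans (by positivity) h1
  have hdiam : ∀ (n : ℕ) (x : ℂ), EMetric.diam (closedBall x ((1 / 2 : ℝ) ^ n)) ≤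
      ENNReal.ofReal (2 * (1 / 2 : ℝ) ^ n) := by
    intro n x
    refine EMetric.diam_le fun a ha b hb => ?_
    rw [edist_dist]
    apply ENNReal.ofReal_le_ofReal
    rw [mem_closedBall] at ha hb
    calc dist a b ≤ dist a x + dist b x := dist_triangle_right a b x
      _ ≤ 2 * (1 / 2 : ℝ) ^ n := by linarith
  have hr : Tendsto (fun n : ℕ => ENNReal.ofReal (2 * (1 / 2 : ℝ) ^ n)) atTop (𝓝 0) := by
    have h1 : Tendsto (fun n : ℕ => 2 * (1 / 2 : ℝ) ^ n) atTop (𝓝 0) := by
      have := (tendsto_pow_atTop_nhds_zero_of_lt_one (r := (1 / 2 : ℝ)) (by norm_num)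
        (by norm_num)).const_mul 2
      simpa using this
    have := ENNReal.tendsto_ofReal h1
    simpa using this
  have hle := MeasureTheory.Measure.hausdorffMeasure_le_liminf_sum (ι := fun n : ℕ => T n) s E
    (l := atTop) (fun n : ℕ => ENNReal.ofReal (2 * (1 / 2 : ℝ) ^ n)) hr
    (fun n i => closedBall (i : ℂ) ((1 / 2 : ℝ) ^ n))
    (Eventually.of_forall fun n i => hdiam n i)
    (Eventually.of_forall fun n c hc => by
      obtain ⟨x, hx, hd⟩ := hE n c hc
      exact mem_iUnion.2 ⟨⟨x, hx⟩, hd⟩)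
  have hsum : ∀ n : ℕ, ∑ i : T n, EMetric.diam (closedBall (i : ℂ) ((1 / 2 : ℝ) ^ n)) ^ s ≤
      ENNReal.ofReal (K * 2 ^ s) := by
    intro n
    calc ∑ i : T n, EMetric.diam (closedBall (i : ℂ) ((1 / 2 : ℝ) ^ n)) ^ s
        ≤ ∑ _i : T n, ENNReal.ofReal ((2 * (1 / 2 : ℝ) ^ n) ^ s) := by
          refine Finset.sum_le_sum fun i _ => ?_
          rw [← ENNReal.ofReal_rpow_of_nonneg (by positivity) hs]
          exact ENNReal.rpow_le_rpow (hdiam n i) hs
      _ = ENNReal.ofReal ((T n).card * (2 * (1 / 2 : ℝ) ^ n) ^ s) := by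
          rw [Finset.sum_const, nsmul_eq_mul, ENNReal.ofReal_mul (by positivity)]
          simp
      _ ≤ ENNReal.ofReal (K * 2 ^ s) := by
          apply ENNReal.ofReal_le_ofReal
          have h1 : (2 * (1 / 2 : ℝ) ^ n) ^ s = 2 ^ s * 2 ^ (-(s * n)) := by
            rw [Real.mul_rpow (by norm_num) (by positivity)]
            congr 1
            rw [← Real.rpow_natCast, one_div, Real.inv_rpow (by norm_num), ← Real.rpow_neg (by norm_num),
              ← Real.rpow_mul (by norm_num)]
            congr 1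
            ring
          rw [h1]
          calc ((T n).card : ℝ) * (2 ^ s * 2 ^ (-(s * n)))
              ≤ (K * 2 ^ (s * n)) * (2 ^ s * 2 ^ (-(s * n))) := by
                gcongr
                exact hT n
            _ = K * 2 ^ s * (2 ^ (s * n) * 2 ^ (-(s * n))) := by ring
            _ = K * 2 ^ s := by
                rw [← Real.rpow_add (by norm_num), add_neg_cancel, Real.rpow_zero, mul_one]
  have hfin : Measure.hausdorffMeasure s E ≤ ENNReal.ofReal (K * 2 ^ s) := by
    refine hle.trans ?_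
    refine liminf_le_of_le (by isBoundedDefault) fun b hb => ?_
    obtain ⟨n, hn⟩ := hb.exists
    exact hn.trans (hsum n)
  have h2 : Measure.hausdorffMeasure ((Real.toNNReal s : ℝ≥0) : ℝ) E ≠ ∞ := by
    rw [Real.coe_toNNReal s hs]
    exact ne_top_of_le_ne_top ENNReal.ofReal_ne_top hfin
  have h3 := dimH_le_of_hausdorffMeasure_ne_top h2
  exact h3

end Pool.Agent.H637R4.PO
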