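import Pool.Agent.H637R4.PO.Defs0
set_option autoImplicit false
open Complex Topology Filter Metric MeasureTheory Set
namespace Pool.Agent.H637R4.PO

private theorem HOLE_fl {x y a P : ℝ} (hP : 0 < P) (h : ⌊(x - a) * P / 8⌋ = ⌊(y - a) * P / 8⌋) :
    |x - y| < 8 / P := by
  have h1 := Int.abs_sub_lt_one_of_floor_eq_floor h
  have h2 : (x - a) * P / 8 - (y - a) * P / 8 = (x - y) * (P / 8) := by ring
  rw [h2, abs_mul, abs_of_pos (by positivity : 0 < P / 8)] at h1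
  rw [lt_div_iff₀ hP]
  linarith

theorem t_HOLE (h1 : S_THIRD) : S_HOLE := by
  intro κ J hκ hJ M k c hP
  obtain ⟨c2, hc2, hd⟩ := hP
  obtain ⟨τ, hτ⟩ := h1 k c
  refine ⟨τ, c2, hτ c2 hc2, ?_⟩
  intro z hz hzM
  refine (Set.disjoint_left.mp hd) ?_ hzM
  unfold idx at hz
  rw [Prod.mk.injEq] at hz
  have hP : (0 : ℝ) < 2 ^ (k + J) := by positivity
  have e1 := HOLE_fl hP hz.1
  have e2 := HOLE_fl hP hz.2
  have h8 : (8 : ℝ) / 2 ^ (k + J) * 12 ≤ 8 * (κ * (1 / 2) ^ k) := by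
    have h9 : (1 / 2 : ℝ) ^ k = 2 ^ J / 2 ^ (k + J) := by
      rw [pow_add, one_div, inv_pow]
      field_simp
    rw [h9]
    have h10 : 8 * (κ * (2 ^ J / 2 ^ (k + J))) = 8 * (κ * 2 ^ J) / 2 ^ (k + J) := by ring
    rw [h10, div_mul_eq_mul_div]
    gcongr
  have hr : 0 < κ * (1 / 2 : ℝ) ^ k := by positivity
  set r := κ * (1 / 2 : ℝ) ^ k with hrd
  set u := (8 : ℝ) / 2 ^ (k + J) with hu
  have hup : 0 < u := by positivity
  rw [mem_ball, dist_eq_norm, ← abs_of_pos hr, ← abs_of_nonneg (norm_nonneg (z - c2)), ← sq_lt_sq,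
    ← Complex.normSq_eq_norm_sq, Complex.normSq_apply, Complex.sub_re, Complex.sub_im]
  have k1 : (z.re - c2.re) * (z.re - c2.re) < u ^ 2 := by
    rw [← sq, sq_lt_sq, abs_of_pos hup]
    exact e1
  have k2 : (z.im - c2.im) * (z.im - c2.im) < u ^ 2 := by
    rw [← sq, sq_lt_sq, abs_of_pos hup]
    exact e2
  have k3 : (3 / 2 * u) ^ 2 ≤ r ^ 2 := pow_le_pow_left₀ (by positivity) (by linarith) 2
  nlinarith

end Pool.Agent.H637R4.PO
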