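import Pool.Agent.H637R4.PO.Defs0

set_option autoImplicit false

open Complex Topology Filter Metric MeasureTheory Set

namespace Pool.Agent.H637R4.PO

theorem LEB_density (K : Set ℂ) : ∀ᵐ c ∂(volume.restrict K),
    Tendsto (fun r : ℝ => volume (K ∩ closedBall c r) / volume (closedBall c r)) (𝓝[>] 0)
      (𝓝 1) := by
  filter_upwards [IsUnifLocDoublingMeasure.ae_tendsto_measure_inter_div volume K 1] with c hc
  refine hc (fun _ : ℝ => c) (fun r => r) tendsto_id ?_
  filter_upwards [self_mem_nhdsWithin] with r hr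
  rw [one_mul]
  exact mem_closedBall_self (le_of_lt hr)

theorem LEB_of {t : ℝ} (ht : 0 ≤ t) :
    ENNReal.ofReal t ^ 2 * (NNReal.pi : ENNReal) = ENNReal.ofReal (t ^ 2 * Real.pi) := by
  rw [ENNReal.ofReal_mul (by positivity), ENNReal.ofReal_pow ht]
  congr 1
  rw [ENNReal.ofReal, ← NNReal.coe_real_pi, Real.toNNReal_coe]

theorem LEB_not {K : Set ℂ} (_hK : IsClosed K) {c : ℂ} {ρ κ : ℝ} (hκ : 0 < κ) (hρ : 0 < ρ)
    (h : ENNReal.ofReal (1 - (κ / (1 + κ)) ^ 2) <
      volume (K ∩ closedBall c ((1 + κ) * ρ)) / volume (closedBall c ((1 + κ) * ρ))) :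
    ¬ Por K c ρ κ := by
  rintro ⟨c', hc', hd⟩
  have hr : 0 < (1 + κ) * ρ := by positivity
  have hsub : ball c' (κ * ρ) ⊆ closedBall c ((1 + κ) * ρ) := by
    intro z hz
    rw [mem_ball] at hz hc'
    rw [mem_closedBall]
    calc dist z c ≤ dist z c' + dist c' c := dist_triangle _ _ _
      _ ≤ (1 + κ) * ρ := by linarith
  have h1 : volume (K ∩ closedBall c ((1 + κ) * ρ)) + volume (ball c' (κ * ρ)) ≤
      volume (closedBall c ((1 + κ) * ρ)) := by
    rw [← measure_union _ measurableSet_ball]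
    · exact measure_mono (union_subset inter_subset_right hsub)
    · exact (hd.symm.mono_left inter_subset_left)
  have hV : volume (closedBall c ((1 + κ) * ρ)) =
      ENNReal.ofReal (((1 + κ) * ρ) ^ 2 * Real.pi) := by
    rw [Complex.volume_closedBall]
    exact LEB_of hr.le
  have hB : volume (ball c' (κ * ρ)) = ENNReal.ofReal ((κ * ρ) ^ 2 * Real.pi) := by
    rw [Complex.volume_ball]
    exact LEB_of (by positivity)
  have hVpos : 0 < ((1 + κ) * ρ) ^ 2 * Real.pi := by positivity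
  have h2 : ENNReal.ofReal (1 - (κ / (1 + κ)) ^ 2) * volume (closedBall c ((1 + κ) * ρ)) <
      volume (K ∩ closedBall c ((1 + κ) * ρ)) := by
    rw [ENNReal.lt_div_iff_mul_lt] at h
    · exact h
    · left
      rw [hV]
      exact (ENNReal.ofReal_pos.2 hVpos).ne'
    · left
      rw [hV]
      exact ENNReal.ofReal_ne_top
  have hq : 0 ≤ 1 - (κ / (1 + κ)) ^ 2 := by
    have h3 : κ / (1 + κ) ≤ 1 := by
      rw [div_le_one (by positivity)]
      linarith
    have h4 : 0 ≤ κ / (1 + κ) := by positivity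
    nlinarith
  have h3 : ENNReal.ofReal (1 - (κ / (1 + κ)) ^ 2) * volume (closedBall c ((1 + κ) * ρ)) +
      volume (ball c' (κ * ρ)) < volume (closedBall c ((1 + κ) * ρ)) := by
    refine lt_of_lt_of_le ?_ h1
    exact ENNReal.add_lt_add_right (by rw [hB]; exact ENNReal.ofReal_ne_top) h2
  rw [hV, hB, ← ENNReal.ofReal_mul hq, ← ENNReal.ofReal_add (by positivity) (by positivity)] at h3
  have h5 : (1 - (κ / (1 + κ)) ^ 2) * (((1 + κ) * ρ) ^ 2 * Real.pi) + (κ * ρ) ^ 2 * Real.pi =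
      ((1 + κ) * ρ) ^ 2 * Real.pi := by
    have : (1 + κ) ≠ 0 := by positivity
    field_simp
    ring
  rw [h5] at h3
  exact lt_irrefl _ h3

theorem t_LEB : S_LEB := by
  intro K hK
  filter_upwards [LEB_density K] with c hc κ hκ
  have hq : ENNReal.ofReal (1 - (κ / (1 + κ)) ^ 2) < 1 := by
    rw [ENNReal.ofReal_lt_one]
    have : 0 < (κ / (1 + κ)) ^ 2 := by positivity
    linarith
  have h1 := hc.eventually (lt_mem_nhds hq)
  rw [eventually_nhdsWithin_iff, Metric.eventually_nhds_iff] at h1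
  obtain ⟨r, hr, h2⟩ := h1
  refine ⟨r / (1 + κ), by positivity, fun ρ hρ => ?_⟩
  have hρ1 : (1 + κ) * ρ < r := by
    have := hρ.2
    rw [lt_div_iff₀ (by positivity)] at this
    linarith
  have hρ0 : 0 < ρ := hρ.1
  refine LEB_not hK hκ hρ0 (h2 (y := (1 + κ) * ρ) ?_ ?_)
  · rw [Real.dist_eq, sub_zero, abs_of_pos (by positivity)]
    exact hρ1
  · exact mem_Ioi.2 (by positivity)

end Pool.Agent.H637R4.PO
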