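import Pool.Agent.H637R4.PO.Defs1

set_option autoImplicit false

open Complex Topology Filter Metric MeasureTheory Set N62a1eb23
open Pool.Agent.H713R2 Pool.Agent.H713R2.AR

namespace Pool.Agent.H637R4.PO

theorem POR_ext {d : ℕ} (hd : 2 ≤ d) : ∃ ψ, Ext (multibrotSet d) ψ := by
  obtain ⟨β, hβ⟩ := exists_beta hd
  have h := exteriorMap_of_beta hβ
  exact ⟨_, h.diff, h.inj, h.image, h.infinity⟩

theorem POR_mono {d : ℕ} (hd : 2 ≤ d) (c : ℂ) {s t : ℝ} (hst : s ≤ t) : Ar d c s ≤ Ar d c t := by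
  unfold Ar
  refine ENNReal.toReal_mono ?_ (measure_mono ?_)
  · exact (isCompact_GLev hd c t).measure_lt_top.ne
  · intro z hz
    exact le_trans hz hst

theorem t_POR (h1 : S_STEP) (h2 : S_UB) (h3 : S_AREA) : S_POR := by
  intro d hd c hc α hα hsmall ρ₁ hρ₁
  by_contra hcon
  push Not at hcon
  obtain ⟨ψ, hψ⟩ := POR_ext hd
  set θ : ℝ := (1 / 2 : ℝ) ^ (1 / α) with hθ
  have hθ0 : 0 < θ := Real.rpow_pos_of_pos (by norm_num) _
  have hθ1 : θ < 1 := Real.rpow_lt_one (by norm_num) (by norm_num) (by positivity)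
  have hθα : θ ^ α = 1 / 2 := by
    rw [hθ, ← Real.rpow_mul (by norm_num), one_div_mul_cancel hα.ne', Real.rpow_one]
  obtain ⟨ρ₀, hρ0, hρ01⟩ : ∃ ρ₀ : ℝ, 0 < ρ₀ ∧ ρ₀ < ρ₁ := ⟨ρ₁ / 2, by positivity, by linarith⟩
  obtain ⟨U, hU, hUB⟩ := h2 _ ψ hψ (‖c‖ + ρ₀)
  have hB : ∀ k : ℕ, Bnd ψ c (ρ₀ / 2 ^ k) (θ ^ k * U) := by
    intro k
    induction k with
    | zero =>
      intro w hw hwb
      rw [pow_zero, one_mul]
      rw [pow_zero, div_one] at hwb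
      apply hUB w hw
      rw [mem_ball, dist_eq_norm] at hwb
      have := norm_sub_norm_le (ψ w) c
      linarith
    | succ k ih =>
      have hk : 0 < ρ₀ / 2 ^ k := by positivity
      have h5 : ¬ Por (multibrotSet d) c (ρ₀ / 2 ^ k) (5 / 8 * θ ^ 5) := by
        apply hcon
        refine ⟨hk, ?_⟩
        have : ρ₀ / 2 ^ k ≤ ρ₀ := div_le_self hρ0.le (one_le_pow₀ (by norm_num))
        linarith
      have h4 := h1 _ ψ hψ c (ρ₀ / 2 ^ k) (θ ^ k * U) θ hk hθ0 ih h5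
      have e1 : ρ₀ / 2 ^ k / 2 = ρ₀ / 2 ^ (k+1) := by rw [pow_succ, div_div]
      have e2 : θ * (θ ^ k * U) = θ ^ (k+1) * U := by rw [pow_succ]; ring
      rw [e1, e2] at h4
      exact h4
  have hdR : (0 : ℝ) < d := by exact_mod_cast (by omega : 0 < d)
  have hCd : 0 < Cd d := by unfold Cd; positivity
  obtain ⟨k₀, hk₀⟩ := exists_pow_lt_of_lt_one (by positivity : 0 < 1 / U) hθ1
  have hk₀' : θ ^ k₀ * U ≤ 1 := by
    rw [lt_div_iff₀ hU] at hk₀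
    exact hk₀.le
  have hUd : 0 < (U / d) ^ α := Real.rpow_pos_of_pos (by positivity) _
  set c₁ : ℝ := ρ₀ / ((U / d) ^ α * Cd d) with hc₁
  have hc₁0 : 0 < c₁ := by positivity
  have hlow : ∀ k : ℕ, k₀ ≤ k → c₁ * (θ ^ k * U / d) ^ α ≤ Ar d c (θ ^ k * U / d) := by
    intro k hk
    have hle : θ ^ k * U ≤ 1 := by
      refine le_trans ?_ hk₀'
      apply mul_le_mul_of_nonneg_right _ hU.le
      exact pow_le_pow_of_le_one hθ0.le hθ1.le hk
    have h6 := h3 d hd ψ hψ c hc (ρ₀ / 2 ^ k) (θ ^ k * U) (by positivity) (by positivity) hle (hB k)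
    have h7 : (θ ^ k * U / d) ^ α = (1 / 2 : ℝ) ^ k * (U / d) ^ α := by
      rw [mul_div_assoc, Real.mul_rpow (by positivity) (by positivity), ← Real.rpow_natCast,
        ← Real.rpow_mul hθ0.le, mul_comm (k : ℝ) α, Real.rpow_mul hθ0.le, hθα, Real.rpow_natCast]
    rw [h7, hc₁]
    have h8 : ρ₀ / ((U / d) ^ α * Cd d) * ((1 / 2 : ℝ) ^ k * (U / d) ^ α) =
        (ρ₀ / 2 ^ k) / Cd d := by
      rw [one_div, inv_pow]
      field_simp
    rw [h8, div_le_iff₀ hCd, mul_comm]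
    exact h6
  set s₁ : ℝ := θ ^ k₀ * U / d with hs₁
  have hs₁0 : 0 < s₁ := by positivity
  obtain ⟨s, ⟨hs0, hs1⟩, hs⟩ := hsmall (c₁ / 4) (by positivity) s₁ hs₁0
  obtain ⟨n, hn1, hn2⟩ := exists_nat_pow_near_of_lt_one (div_pos hs0 hs₁0)
    (by rw [div_le_one hs₁0]; exact hs1.le) hθ0 hθ1
  rw [lt_div_iff₀ hs₁0] at hn1
  rw [div_le_iff₀ hs₁0] at hn2
  have e3 : θ ^ (k₀ + (n + 1)) * U / d = θ ^ (n + 1) * s₁ := by
    rw [hs₁, pow_add]; ring
  have h9 := hlow (k₀ + (n + 1)) (by omega)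
  rw [e3] at h9
  have h10 := POR_mono hd c hn1.le
  have h11 : θ * s ≤ θ ^ (n + 1) * s₁ := by
    rw [pow_succ]
    nlinarith
  have h12 : (θ * s) ^ α ≤ (θ ^ (n + 1) * s₁) ^ α :=
    Real.rpow_le_rpow (by positivity) h11 hα.le
  rw [Real.mul_rpow hθ0.le hs0.le, hθα] at h12
  have hsα : 0 < s ^ α := Real.rpow_pos_of_pos hs0 _
  have h13 : c₁ * (1 / 2 * s ^ α) ≤ c₁ * (θ ^ (n + 1) * s₁) ^ α :=
    mul_le_mul_of_nonneg_left h12 hc₁0.le
  have h14 : 0 < c₁ * s ^ α := by positivity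
  linarith

end Pool.Agent.H637R4.PO
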