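import Pool.Agent.H637R4.PO.Defs0

/-! RAY: distortion along a ray of an exterior map. -/

set_option autoImplicit false

open Complex Topology Filter Metric MeasureTheory Set

namespace Pool.Agent.H637R4.PO

theorem RAY_norm {e : ℂ} (he : ‖e‖ = 1) {t : ℝ} (ht : 0 < t) : ‖((1 + t : ℝ) : ℂ) * e‖ = 1 + t := by
  rw [norm_mul, he, mul_one, Complex.norm_real, Real.norm_eq_abs, abs_of_pos (by linarith)]

theorem RAY_open : IsOpen {z : ℂ | 1 < ‖z‖} := isOpen_lt continuous_const continuous_norm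

theorem t_RAY (hKB : S_KB) : S_RAY := by
  intro ψ e x y hψ hinj he hx hxy
  have hopen := RAY_open
  have hmem : ∀ t : ℝ, 0 < t → ((1 + t : ℝ) : ℂ) * e ∈ {z : ℂ | 1 < ‖z‖} := by
    intro t ht
    simp only [mem_ofPred_eq]
    rw [RAY_norm he ht]
    linarith
  have hd1 : ∀ z ∈ {z : ℂ | 1 < ‖z‖}, DifferentiableAt ℂ ψ z := fun z hz =>
    (hψ z hz).differentiableAt (hopen.mem_nhds hz)
  have hψ' : DifferentiableOn ℂ (deriv ψ) {z : ℂ | 1 < ‖z‖} := hψ.deriv hopen
  have hd2 : ∀ z ∈ {z : ℂ | 1 < ‖z‖}, DifferentiableAt ℂ (deriv ψ) z := fun z hz =>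
    (hψ' z hz).differentiableAt (hopen.mem_nhds hz)
  -- Koebe
  have hK : ∀ t : ℝ, 0 < t → t * ‖deriv (deriv ψ) (((1 + t : ℝ) : ℂ) * e)‖ ≤
      4 * ‖deriv ψ (((1 + t : ℝ) : ℂ) * e)‖ := by
    intro t ht
    have hball : ball (((1 + t : ℝ) : ℂ) * e) t ⊆ {z : ℂ | 1 < ‖z‖} := by
      intro z hz
      rw [mem_ball, dist_eq_norm] at hz
      have h1 := RAY_norm he ht
      have h2 : ‖((1 + t : ℝ) : ℂ) * e‖ ≤ ‖z‖ + ‖z - ((1 + t : ℝ) : ℂ) * e‖ := by
        have h3 : ((1 + t : ℝ) : ℂ) * e = z - (z - ((1 + t : ℝ) : ℂ) * e) := by ring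
        conv_lhs => rw [h3]
        exact norm_sub_le _ _
      simp only [mem_ofPred_eq]
      linarith
    exact (hKB ψ _ t ht (hψ.mono hball) (hinj.mono hball)).2
  -- first step: growth of the derivative
  have hF : ∀ s : ℝ, HasDerivAt (fun s : ℝ => deriv ψ (((1 + x * Real.exp s : ℝ) : ℂ) * e))
      (deriv (deriv ψ) (((1 + x * Real.exp s : ℝ) : ℂ) * e) * (((x * Real.exp s : ℝ) : ℂ) * e)) s := by
    intro s
    have h1 : HasDerivAt (fun s : ℝ => (1 + x * Real.exp s : ℝ)) (x * Real.exp s) s := by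
      simpa using ((Real.hasDerivAt_exp s).const_mul x).const_add 1
    have h2 : HasDerivAt (fun s : ℝ => ((1 + x * Real.exp s : ℝ) : ℂ) * e)
        (((x * Real.exp s : ℝ) : ℂ) * e) s := (h1.ofReal_comp).mul_const e
    exact HasDerivAt.comp s (hd2 _ (hmem _ (by positivity))).hasDerivAt h2
  have hG : ∀ t : ℝ, x ≤ t → ‖deriv ψ (((1 + t : ℝ) : ℂ) * e)‖ ≤
      ‖deriv ψ (((1 + x : ℝ) : ℂ) * e)‖ * (t / x) ^ 4 := by
    intro t ht
    have ht0 : 0 < t := lt_of_lt_of_le hx ht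
    have hlog : 0 ≤ Real.log (t / x) := Real.log_nonneg ((one_le_div hx).2 ht)
    have h1 := norm_le_gronwallBound_of_norm_deriv_right_le
      (f := fun s : ℝ => deriv ψ (((1 + x * Real.exp s : ℝ) : ℂ) * e))
      (f' := fun s : ℝ => deriv (deriv ψ) (((1 + x * Real.exp s : ℝ) : ℂ) * e) *
        (((x * Real.exp s : ℝ) : ℂ) * e))
      (δ := ‖deriv ψ (((1 + x : ℝ) : ℂ) * e)‖) (K := 4) (ε := 0) (a := 0) (b := Real.log (t / x))
      (fun s _ => (hF s).continuousAt.continuousWithinAt)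
      (fun s _ => (hF s).hasDerivWithinAt) (by simp)
      (fun s _ => by
        have h3 := hK (x * Real.exp s) (by positivity)
        rw [norm_mul, norm_mul, he, mul_one, Complex.norm_real, Real.norm_eq_abs,
          abs_of_pos (by positivity)]
        linarith)
      (Real.log (t / x)) ⟨hlog, le_rfl⟩
    rw [gronwallBound_ε0] at h1
    have h4 : x * Real.exp (Real.log (t / x)) = t := by
      rw [Real.exp_log (by positivity)]
      field_simp
    have h5 : Real.exp (4 * (Real.log (t / x) - 0)) = (t / x) ^ 4 := by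
      rw [sub_zero, show (4 : ℝ) * Real.log (t / x) = ((4 : ℕ) : ℝ) * Real.log (t / x) by norm_num,
        Real.exp_nat_mul, Real.exp_log (by positivity)]
    rw [h5] at h1
    simp only [h4] at h1
    exact h1
  -- second step
  have hd3 : ∀ t : ℝ, 0 < t → HasDerivAt (fun t : ℝ => ψ (((1 + t : ℝ) : ℂ) * e) -
      ψ (((1 + x : ℝ) : ℂ) * e)) (deriv ψ (((1 + t : ℝ) : ℂ) * e) * e) t := by
    intro t ht
    have h1 : HasDerivAt (fun s : ℝ => (1 + s : ℝ)) 1 t := by
      simpa using (hasDerivAt_id t).const_add 1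
    have h2 : HasDerivAt (fun s : ℝ => ((1 + s : ℝ) : ℂ) * e) (((1 : ℝ) : ℂ) * e) t :=
      (h1.ofReal_comp).mul_const e
    have h3 := HasDerivAt.comp t (hd1 _ (hmem t ht)).hasDerivAt h2
    simp only [Complex.ofReal_one, one_mul] at h3
    exact h3.sub_const _
  have h6 := image_norm_le_of_norm_deriv_right_le_deriv_boundary
    (f := fun t : ℝ => ψ (((1 + t : ℝ) : ℂ) * e) - ψ (((1 + x : ℝ) : ℂ) * e))
    (f' := fun t : ℝ => deriv ψ (((1 + t : ℝ) : ℂ) * e) * e) (a := x) (b := y)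
    (fun t ht => (hd3 t (lt_of_lt_of_le hx ht.1)).continuousAt.continuousWithinAt)
    (fun t ht => (hd3 t (lt_of_lt_of_le hx ht.1)).hasDerivWithinAt)
    (B := fun t => x * ‖deriv ψ (((1 + x : ℝ) : ℂ) * e)‖ * (t / x) ^ 5 / 5)
    (B' := fun t => ‖deriv ψ (((1 + x : ℝ) : ℂ) * e)‖ * (t / x) ^ 4)
    (by
      have h9 : (0 : ℝ) ≤ x * ‖deriv ψ (((1 + x : ℝ) : ℂ) * e)‖ * (x / x) ^ 5 / 5 := by positivity
      simpa using h9)
    (fun t => by
      have h7 : HasDerivAt (fun t : ℝ => t / x) (1 / x) t := by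
        simpa using (hasDerivAt_id t).div_const x
      have h8 := ((h7.pow 5).const_mul (x * ‖deriv ψ (((1 + x : ℝ) : ℂ) * e)‖)).div_const 5
      refine h8.congr_deriv ?_
      push_cast
      norm_num
      field_simp)
    (fun t ht => by
      rw [norm_mul, he, mul_one]
      exact hG t ht.1)
    ⟨hxy, le_rfl⟩
  exact h6

end Pool.Agent.H637R4.PO
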