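import Pool.Agent.H637R4.PO.Defs0

/-! SQ: squares with many good ancestors (helper398, project of helper637). -/

set_option autoImplicit false

open Complex Topology Filter Metric MeasureTheory Set

namespace Pool.Agent.H637R4.PO

namespace SQx

theorem floor_mul_ediv (y : ℝ) (J : ℕ) : ⌊y * 2 ^ J⌋ / (2 : ℤ) ^ J = ⌊y⌋ := by
  have hm : (0 : ℤ) < 2 ^ J := by positivity
  have hmR : (0 : ℝ) < 2 ^ J := by positivity
  have h1 : (⌊y⌋ : ℝ) ≤ y := Int.floor_le y
  have h2 : y < ⌊y⌋ + 1 := Int.lt_floor_add_one y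
  apply le_antisymm
  · apply Int.lt_add_one_iff.1
    rw [Int.ediv_lt_iff_lt_mul hm]
    have h3 : (⌊y * 2 ^ J⌋ : ℝ) ≤ y * 2 ^ J := Int.floor_le _
    have h4 : (⌊y * 2 ^ J⌋ : ℝ) < ((⌊y⌋ + 1) * 2 ^ J : ℤ) := by
      push_cast
      exact h3.trans_lt (mul_lt_mul_of_pos_right h2 hmR)
    exact_mod_cast h4
  · rw [Int.le_ediv_iff_mul_le hm, Int.le_floor]
    push_cast
    exact mul_le_mul_of_nonneg_right h1 hmR.le

/-- the parent -/
def par (J : ℕ) (v : ℤ × ℤ) : ℤ × ℤ := (v.1 / 2 ^ J, v.2 / 2 ^ J)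

theorem par_idx (τ : Bool × Bool) (J k : ℕ) (c : ℂ) : par J (idx τ (k + J) c) = idx τ k c := by
  unfold par idx
  have h : ∀ x : ℝ, x * 2 ^ (k + J) / 8 = (x * 2 ^ k / 8) * 2 ^ J := by
    intro x; rw [pow_add]; ring
  simp only [h, floor_mul_ediv]

/-- the children -/
noncomputable def Fib (J : ℕ) (v : ℤ × ℤ) : Finset (ℤ × ℤ) :=
  Finset.Ico (v.1 * 2 ^ J) (v.1 * 2 ^ J + 2 ^ J) ×ˢ Finset.Ico (v.2 * 2 ^ J) (v.2 * 2 ^ J + 2 ^ J)

theorem card_Fib (J : ℕ) (v : ℤ × ℤ) : (Fib J v).card = 4 ^ J := by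
  have h : ∀ x : ℤ, (Finset.Ico (x * 2 ^ J) (x * 2 ^ J + 2 ^ J)).card = 2 ^ J := by
    intro x
    rw [Int.card_Ico]
    have : x * 2 ^ J + 2 ^ J - x * 2 ^ J = ((2 ^ J : ℕ) : ℤ) := by push_cast; ring
    rw [this, Int.toNat_natCast]
  unfold Fib
  rw [Finset.card_product, h, h, ← mul_pow]
  norm_num

theorem mem_Fib (J : ℕ) (u v : ℤ × ℤ) : u ∈ Fib J v ↔ par J u = v := by
  have hm : (0 : ℤ) < 2 ^ J := by positivity
  have h : ∀ x y : ℤ, (x ∈ Finset.Ico (y * 2 ^ J) (y * 2 ^ J + 2 ^ J)) ↔ x / 2 ^ J = y := by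
    intro x y
    rw [Finset.mem_Ico]
    constructor
    · rintro ⟨h1, h2⟩
      apply le_antisymm
      · apply Int.lt_add_one_iff.1
        rw [Int.ediv_lt_iff_lt_mul hm]
        linarith
      · rw [Int.le_ediv_iff_mul_le hm]
        exact h1
    · intro h
      constructor
      · rw [← Int.le_ediv_iff_mul_le hm, h]
      · have h3 : x / 2 ^ J < y + 1 := by rw [h]; exact lt_add_one y
        rw [Int.ediv_lt_iff_lt_mul hm] at h3
        linarith
  unfold Fib par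
  rw [Finset.mem_product, h, h, Prod.ext_iff]

/-- shift -/
noncomputable def sh (b : Bool) : ℝ := if b then 8 / 3 else 0

/-- indices of points with coordinate in `[-2, 2]` -/
noncomputable def bx (b : Bool) (k : ℕ) : Finset ℤ :=
  Finset.Icc ⌊(-2 - sh b) * 2 ^ k / 8⌋ ⌊(2 - sh b) * 2 ^ k / 8⌋

theorem card_bx (b : Bool) (k : ℕ) : ((bx b k).card : ℝ) ≤ 10 * 2 ^ k := by
  unfold bx
  rw [Int.card_Icc]
  have h1 : ⌊(-2 - sh b) * 2 ^ k / 8⌋ ≤ ⌊(2 - sh b) * 2 ^ k / 8⌋ := by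
    apply Int.floor_mono
    have : (0 : ℝ) < 2 ^ k := by positivity
    nlinarith
  have h2 : (0 : ℤ) ≤ ⌊(2 - sh b) * 2 ^ k / 8⌋ + 1 - ⌊(-2 - sh b) * 2 ^ k / 8⌋ := by linarith
  have h3 : (((⌊(2 - sh b) * 2 ^ k / 8⌋ + 1 - ⌊(-2 - sh b) * 2 ^ k / 8⌋).toNat : ℕ) : ℝ) =
      ((⌊(2 - sh b) * 2 ^ k / 8⌋ + 1 - ⌊(-2 - sh b) * 2 ^ k / 8⌋ : ℤ) : ℝ) := by
    have : (((⌊(2 - sh b) * 2 ^ k / 8⌋ + 1 - ⌊(-2 - sh b) * 2 ^ k / 8⌋).toNat : ℕ) : ℤ) =
      ⌊(2 - sh b) * 2 ^ k / 8⌋ + 1 - ⌊(-2 - sh b) * 2 ^ k / 8⌋ := Int.toNat_of_nonneg h2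
    exact_mod_cast congrArg (Int.cast (R := ℝ)) this
  rw [h3]
  push_cast
  have h4 : (⌊(2 - sh b) * 2 ^ k / 8⌋ : ℝ) ≤ (2 - sh b) * 2 ^ k / 8 := Int.floor_le _
  have h5 : (-2 - sh b) * 2 ^ k / 8 < ⌊(-2 - sh b) * 2 ^ k / 8⌋ + 1 := Int.lt_floor_add_one _
  have h6 : (1 : ℝ) ≤ 2 ^ k := one_le_pow₀ (by norm_num)
  nlinarith

/-- the box -/
noncomputable def box (τ : Bool × Bool) (k : ℕ) : Finset (ℤ × ℤ) := bx τ.1 k ×ˢ bx τ.2 k

theorem card_box (τ : Bool × Bool) (k : ℕ) : ((box τ k).card : ℝ) ≤ 100 * 4 ^ k := by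
  unfold box
  rw [Finset.card_product]
  push_cast
  have h1 := card_bx τ.1 k
  have h2 := card_bx τ.2 k
  calc ((bx τ.1 k).card : ℝ) * (bx τ.2 k).card ≤ (10 * 2 ^ k) * (10 * 2 ^ k) :=
        mul_le_mul h1 h2 (Nat.cast_nonneg _) (by positivity)
    _ = 100 * 4 ^ k := by
        have : (4 : ℝ) ^ k = 2 ^ k * 2 ^ k := by rw [← mul_pow]; norm_num
        rw [this]; ring

theorem mem_bx (b : Bool) (k : ℕ) {x : ℝ} (hx : |x| ≤ 2) :
    ⌊(x - if b then 8 / 3 else 0) * 2 ^ k / 8⌋ ∈ bx b k := by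
  have h := abs_le.1 hx
  have h2 : (0 : ℝ) < 2 ^ k := by positivity
  unfold bx sh
  rw [Finset.mem_Icc]
  constructor
  · apply Int.floor_mono
    apply div_le_div_of_nonneg_right _ (by norm_num)
    apply mul_le_mul_of_nonneg_right _ h2.le
    linarith [h.1]
  · apply Int.floor_mono
    apply div_le_div_of_nonneg_right _ (by norm_num)
    apply mul_le_mul_of_nonneg_right _ h2.le
    linarith [h.2]

theorem mem_box (τ : Bool × Bool) (k : ℕ) {c : ℂ} (hc : c ∈ closedBall (0 : ℂ) 2) :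
    idx τ k c ∈ box τ k := by
  have h : ‖c‖ ≤ 2 := by simpa using hc
  unfold idx box
  rw [Finset.mem_product]
  exact ⟨mem_bx _ _ ((Complex.abs_re_le_norm c).trans h),
    mem_bx _ _ ((Complex.abs_im_le_norm c).trans h)⟩

open Classical in
/-- squares which meet `M` -/
noncomputable def VV (M : Set ℂ) (τ : Bool × Bool) (r J t : ℕ) : Finset (ℤ × ℤ) :=
  (box τ (r + t * J)).filter (fun v => ∃ c ∈ M, idx τ (r + t * J) c = v)

theorem mem_VV {M : Set ℂ} (hM : M ⊆ closedBall 0 2) (τ : Bool × Bool) (r J t : ℕ) (v : ℤ × ℤ) :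
    v ∈ VV M τ r J t ↔ ∃ c ∈ M, idx τ (r + t * J) c = v := by
  classical
  unfold VV
  rw [Finset.mem_filter]
  constructor
  · exact fun h => h.2
  · rintro ⟨c, hc, rfl⟩
    exact ⟨mem_box τ _ (hM hc), c, hc, rfl⟩

open Classical in
/-- good squares -/
noncomputable def GG (M : Set ℂ) (τ : Bool × Bool) (r J t : ℕ) (v : ℤ × ℤ) : Bool :=
  decide (∃ u, par J u = v ∧ u ∉ VV M τ r J (t + 1))

end SQx

open SQx in
theorem t_SQ (h1 : S_TREE) : S_SQ := by
  classical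
  intro J hJ M hM τ r t a _
  have hstep : ∀ t c, par J (idx τ (r + (t + 1) * J) c) = idx τ (r + t * J) c := by
    intro t c
    have : r + (t + 1) * J = (r + t * J) + J := by ring
    rw [this, par_idx]
  have h4 : 2 ≤ 4 ^ J := by
    calc 2 ≤ 4 ^ 1 := by norm_num
      _ ≤ 4 ^ J := Nat.pow_le_pow_right (by norm_num) hJ
  have htree := h1 (ℤ × ℤ) (4 ^ J) (VV M τ r J) (fun _ => par J) (GG M τ r J) h4
    (by
      intro t v hv
      rw [mem_VV hM] at hv ⊢
      obtain ⟨c, hc, rfl⟩ := hv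
      exact ⟨c, hc, (hstep t c).symm⟩)
    (by
      intro t v _
      rw [← card_Fib J v]
      apply Finset.card_le_card
      intro u hu
      rw [mem_Fib]
      exact (Finset.mem_filter.1 hu).2)
    (by
      intro t v _ hG
      unfold GG at hG
      rw [decide_eq_true_eq] at hG
      obtain ⟨u₀, hu1, hu2⟩ := hG
      have h5 : (VV M τ r J (t + 1)).filter (fun u => par J u = v) ⊆ (Fib J v).erase u₀ := by
        intro u hu
        rw [Finset.mem_filter] at hu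
        rw [Finset.mem_erase, mem_Fib]
        refine ⟨?_, hu.2⟩
        rintro rfl
        exact hu2 hu.1
      have h6 := Finset.card_le_card h5
      rwa [Finset.card_erase_of_mem ((mem_Fib J u₀ v).2 hu1), card_Fib] at h6)
    t a
  refine ⟨(VV M τ r J t).filter (fun v => a ≤ gc (fun _ => par J) (GG M τ r J) t v), ?_, ?_⟩
  · refine htree.trans ?_
    have h5 : ((VV M τ r J 0).card : ℝ) ≤ 100 * 4 ^ r := by
      have h6 : (VV M τ r J 0).card ≤ (box τ (r + 0 * J)).card :=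
        Finset.card_le_card (Finset.filter_subset _ _)
      have h7 := card_box τ (r + 0 * J)
      rw [zero_mul, add_zero] at h6 h7
      exact le_trans (by exact_mod_cast h6) h7
    push_cast
    have h8 : (1 : ℝ) ≤ 4 ^ J := one_le_pow₀ (by norm_num)
    have h9 : (0 : ℝ) ≤ ((4 : ℝ) ^ J - 1) / 4 ^ J := div_nonneg (by linarith) (by positivity)
    apply mul_le_mul_of_nonneg_right _ (pow_nonneg h9 _)
    exact mul_le_mul_of_nonneg_right h5 (by positivity)
  · rintro c hc ⟨S, hSt, hSa, hS⟩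
    rw [Finset.mem_filter, mem_VV hM]
    refine ⟨⟨c, hc, rfl⟩, hSa.trans ?_⟩
    have hG : ∀ i ∈ S, GG M τ r J i (idx τ (r + i * J) c) = true := by
      intro i hi
      obtain ⟨c', h5, h6⟩ := hS i hi
      unfold GG
      rw [decide_eq_true_eq]
      refine ⟨idx τ (r + (i + 1) * J) c', by rw [hstep, h5], ?_⟩
      rw [mem_VV hM]
      rintro ⟨z, hz, hz2⟩
      exact h6 z hz2 hz
    have key : ∀ t : ℕ, ∀ S : Finset ℕ, S ⊆ Finset.range t →
        (∀ i ∈ S, GG M τ r J i (idx τ (r + i * J) c) = true) →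
        S.card ≤ gc (fun _ => par J) (GG M τ r J) t (idx τ (r + t * J) c) := by
      intro t
      induction t with
      | zero =>
        intro S hS _
        rw [Finset.range_zero, Finset.subset_empty] at hS
        rw [hS]
        exact Nat.zero_le _
      | succ t ih =>
        intro S hS hSG
        have h5 := ih (S.erase t) (by
          intro i hi
          rw [Finset.mem_erase] at hi
          have := Finset.mem_range.1 (hS hi.2)
          rw [Finset.mem_range]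
          omega) (fun i hi => hSG i (Finset.mem_of_mem_erase hi))
        rw [gc, hstep]
        by_cases ht : t ∈ S
        · rw [if_pos (hSG t ht)]
          rw [Finset.card_erase_of_mem ht] at h5
          omega
        · rw [Finset.erase_eq_of_notMem ht] at h5
          omega
    exact key t S hSt hG

end Pool.Agent.H637R4.PO
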