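import Pool.Agent.H637R4.PO.Defs1
import Pool.Agent.H713R2.AR.GF

set_option autoImplicit false

open Complex Topology Filter Metric MeasureTheory Set N62a1eb23
open Pool.Agent.H713R2 Pool.Agent.H713R2.AR

namespace Pool.Agent.H637R4.PO

theorem t_STAR (h1 : S_GRM) : S_STAR := by
  intro d a b hab ψ hE c ρ s hρ hs hB
  have hd : 2 ≤ d := by omega
  have hψ : IsExteriorMap (multibrotSet d) ψ := ⟨hE.diff, hE.inj, hE.image, hE.infinity⟩
  have hγ : DifferentiableOn ℂ (fun t : ℂ => c + ρ * t) (ball 0 1) := by fun_prop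
  have hs' : ∀ t ∈ ball (0 : ℂ) 1, green d ((fun t : ℂ => c + ρ * t) t)
      ((fun t : ℂ => c + ρ * t) t) ≤ s := by
    intro t ht
    show green d (c + ρ * t) (c + ρ * t) ≤ s
    by_cases hm : c + ρ * t ∈ multibrotSet d
    · rw [h1 d hd _ hm]; exact hs
    · have h2 : c + ρ * t ∈ ψ '' {z | 1 < ‖z‖} := by rw [hE.image]; exact hm
      obtain ⟨w, hw, hwe⟩ := h2
      have h3 := green_exterior_le hd hψ hw
      rw [hwe] at h3
      have h4 := hB w hw (by
        rw [hwe, mem_ball, dist_eq_norm, add_sub_cancel_left, norm_mul, Complex.norm_real,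
          Real.norm_eq_abs, abs_of_pos hρ]
        have h5 : ‖t‖ < 1 := mem_ball_zero_iff.1 ht
        nlinarith)
      have h6 := Real.log_le_sub_one_of_pos (lt_trans one_pos hw)
      linarith
  have hmain := main_green hab hγ hs'
  have hder : deriv (fun t : ℂ => c + ρ * t) 0 = ρ := by
    have h4 : HasDerivAt (fun t : ℂ => c + (ρ : ℂ) * t) ρ 0 := by
      simpa using ((hasDerivAt_id (0 : ℂ)).const_mul (ρ : ℂ)).const_add c
    exact h4.deriv
  rw [hder, Complex.norm_real, Real.norm_eq_abs, abs_of_pos hρ] at hmain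
  simpa using hmain

end Pool.Agent.H637R4.PO
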