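import Pool.Agent.H637R4.PO.Defs0
set_option autoImplicit false
open Complex Topology Filter Metric MeasureTheory Set
namespace Pool.Agent.H637R4.PO

theorem t_STEP (h1 : S_ESC) : S_STEP := by
  intro K ψ hE c ρ s θ hρ hθ hB hP w hw hwb
  by_contra hcon
  rw [not_le] at hcon
  have hwc : ψ w ∈ ball c ρ := ball_subset_ball (by linarith) hwb
  have h2 := h1 K ψ hE w θ (ρ / 2) hw hθ (by linarith) (by
    intro w' hw' hb
    have h3 : ψ w' ∈ ball c ρ := by
      rw [mem_ball] at hb hwb ⊢
      have := dist_triangle (ψ w') (ψ w) c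
      linarith
    have h4 := hB w' hw' h3
    have h5 : θ * (‖w'‖ - 1) ≤ θ * s := mul_le_mul_of_nonneg_left h4 hθ.le
    linarith)
  apply hP
  refine ⟨ψ w, hwc, ?_⟩
  rw [Set.disjoint_left]
  intro m hm hmK
  have h3 := h2 m hmK
  rw [mem_ball, dist_eq_norm] at hm
  linarith

end Pool.Agent.H637R4.PO
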