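import Pool.Agent.H637R4.PO.Defs0

/-! THIRD (helper85): the one third trick. -/

set_option autoImplicit false

open Complex Topology Filter Metric MeasureTheory Set

namespace Pool.Agent.H637R4.PO

theorem THIRD_floor {a a' : ℝ} (h : |a' - a| < 1 / 8) (hne : ⌊a'⌋ ≠ ⌊a⌋) :
    ∃ m : ℤ, |a - m| < 1 / 8 := by
  rw [abs_lt] at h
  rcases lt_or_gt_of_ne hne with h1 | h1
  · refine ⟨⌊a⌋, ?_⟩
    have h2 : a' < ⌊a⌋ := Int.floor_lt.1 h1
    have h3 := Int.floor_le a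
    rw [abs_lt]
    constructor <;> linarith [h.1, h.2]
  · refine ⟨⌊a'⌋, ?_⟩
    have h2 : a < ⌊a'⌋ := Int.floor_lt.1 h1
    have h3 := Int.floor_le a'
    rw [abs_lt]
    constructor <;> linarith [h.1, h.2]

theorem THIRD_one (k : ℕ) (x : ℝ) : ∃ b : Bool, ∀ y : ℝ, |y - x| < (1 / 2 : ℝ) ^ k →
    ⌊(y - if b then 8 / 3 else 0) * 2 ^ k / 8⌋ = ⌊(x - if b then 8 / 3 else 0) * 2 ^ k / 8⌋ := by
  by_contra hcon
  push Not at hcon
  have hk : (0 : ℝ) < 2 ^ k := by positivity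
  have hkk : (1 / 2 : ℝ) ^ k * 2 ^ k = 1 := by
    rw [← mul_pow]
    norm_num
  have key : ∀ (s y : ℝ), |y - x| < (1 / 2 : ℝ) ^ k →
      |(y - s) * 2 ^ k / 8 - (x - s) * 2 ^ k / 8| < 1 / 8 := by
    intro s y hy
    have e : (y - s) * 2 ^ k / 8 - (x - s) * 2 ^ k / 8 = (y - x) * (2 ^ k / 8) := by ring
    rw [e, abs_mul, abs_of_pos (by positivity : (0 : ℝ) < 2 ^ k / 8)]
    have := mul_lt_mul_of_pos_right hy hk
    linarith
  obtain ⟨y1, hy1, h1⟩ := hcon false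
  obtain ⟨y2, hy2, h2⟩ := hcon true
  obtain ⟨m1, hm1⟩ := THIRD_floor (key _ y1 hy1) h1
  obtain ⟨m2, hm2⟩ := THIRD_floor (key _ y2 hy2) h2
  simp only [Bool.false_eq_true, if_false, if_true] at hm1 hm2
  rw [abs_lt] at hm1 hm2
  have h3 : ((3 * (m1 - m2) - 2 ^ k : ℤ) : ℝ) < 1 := by
    push_cast
    linarith [hm1.1, hm1.2, hm2.1, hm2.2]
  have h4 : (-1 : ℝ) < ((3 * (m1 - m2) - 2 ^ k : ℤ) : ℝ) := by
    push_cast
    linarith [hm1.1, hm1.2, hm2.1, hm2.2]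
  have h5 : (3 * (m1 - m2) - 2 ^ k : ℤ) < 1 := by exact_mod_cast h3
  have h6 : (-1 : ℤ) < 3 * (m1 - m2) - 2 ^ k := by exact_mod_cast h4
  have h7 : (3 : ℤ) ∣ 2 ^ k := ⟨m1 - m2, by omega⟩
  have h8 : (3 : ℤ) ∣ 2 := Int.Prime.dvd_pow' (p := 3) (by norm_num) h7
  omega

theorem t_THIRD : S_THIRD := by
  intro k c
  obtain ⟨b1, h1⟩ := THIRD_one k c.re
  obtain ⟨b2, h2⟩ := THIRD_one k c.im
  refine ⟨(b1, b2), fun c' hc' => ?_⟩
  rw [mem_ball, dist_eq_norm] at hc'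
  have e1 : |c'.re - c.re| < (1 / 2 : ℝ) ^ k := by
    have := Complex.abs_re_le_norm (c' - c)
    rw [Complex.sub_re] at this
    exact this.trans_lt hc'
  have e2 : |c'.im - c.im| < (1 / 2 : ℝ) ^ k := by
    have := Complex.abs_im_le_norm (c' - c)
    rw [Complex.sub_im] at this
    exact this.trans_lt hc'
  unfold idx
  exact Prod.ext (h1 _ e1) (h2 _ e2)

end Pool.Agent.H637R4.PO
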