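import Pool.Agent.H637R4.PO.Defs0
set_option autoImplicit false
open Complex Topology Filter Metric MeasureTheory Set
namespace Pool.Agent.H637R4.PO

theorem t_TREE : S_TREE := by
  intro X _ A V par G hA hpar hc hg t a
  have hA' : (2 : ℝ) ≤ A := by exact_mod_cast hA
  set q : ℝ := ((A : ℝ) - 1) / A with hq
  have hq0 : 0 < q := div_pos (by linarith) (by linarith)
  have hq1 : q ≤ 1 := by
    rw [hq, div_le_one (by linarith)]
    linarith
  have hstep : ∀ t, ∑ v ∈ V (t + 1), (q ^ gc par G (t + 1) v)⁻¹ ≤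
      A * ∑ v ∈ V t, (q ^ gc par G t v)⁻¹ := by
    intro t
    rw [← Finset.sum_fiberwise_of_maps_to (g := par t) (hpar t), Finset.mul_sum]
    apply Finset.sum_le_sum
    intro u hu
    have hpos : 0 < (q ^ gc par G t u)⁻¹ := by positivity
    have h1 : ∑ v ∈ (V (t + 1)).filter (fun v => par t v = u), (q ^ gc par G (t + 1) v)⁻¹ =
        ((V (t + 1)).filter (fun v => par t v = u)).card *
          (q ^ (gc par G t u + (if G t u then 1 else 0)))⁻¹ := by
      rw [Finset.sum_congr rfl (g := fun _ => (q ^ (gc par G t u + (if G t u then 1 else 0)))⁻¹)]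
      · rw [Finset.sum_const, nsmul_eq_mul]
      · intro v hv
        rw [Finset.mem_filter] at hv
        simp only [gc, hv.2]
    rw [h1]
    by_cases hG : G t u = true
    · have h2 : ((((V (t + 1)).filter (fun v => par t v = u)).card : ℕ) : ℝ) ≤ (A : ℝ) - 1 := by
        have h3 := hg t u hu hG
        have h4 : ((((V (t + 1)).filter (fun v => par t v = u)).card : ℕ) : ℝ) ≤ ((A - 1 : ℕ) : ℝ) := by
          exact_mod_cast h3
        rw [Nat.cast_sub (by omega)] at h4
        simpa using h4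
      rw [if_pos hG, pow_succ, mul_inv]
      have h5 : ((A : ℝ) - 1) * q⁻¹ = A := by
        rw [hq, inv_div]
        have : (A : ℝ) - 1 ≠ 0 := by linarith
        field_simp
      have hqi : 0 < q⁻¹ := by positivity
      calc _ ≤ ((A : ℝ) - 1) * ((q ^ gc par G t u)⁻¹ * q⁻¹) :=
            mul_le_mul_of_nonneg_right h2 (by positivity)
        _ = (((A : ℝ) - 1) * q⁻¹) * (q ^ gc par G t u)⁻¹ := by ring
        _ = _ := by rw [h5]
    · rw [if_neg hG, add_zero]
      have h3 : ((((V (t + 1)).filter (fun v => par t v = u)).card : ℕ) : ℝ) ≤ (A : ℝ) := by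
        exact_mod_cast hc t u hu
      exact mul_le_mul_of_nonneg_right h3 hpos.le
  have hW : ∀ t, ∑ v ∈ V t, (q ^ gc par G t v)⁻¹ ≤ (V 0).card * (A : ℝ) ^ t := by
    intro t
    induction t with
    | zero => simp [gc]
    | succ t ih =>
      refine (hstep t).trans ?_
      calc (A : ℝ) * ∑ v ∈ V t, (q ^ gc par G t v)⁻¹ ≤ A * ((V 0).card * (A : ℝ) ^ t) :=
            mul_le_mul_of_nonneg_left ih (by linarith)
        _ = _ := by ring
  have h1 : (((V t).filter (fun v => a ≤ gc par G t v)).card : ℝ) * (q ^ a)⁻¹ ≤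
      ∑ v ∈ V t, (q ^ gc par G t v)⁻¹ := by
    rw [← nsmul_eq_mul, ← Finset.sum_const]
    refine (Finset.sum_le_sum (fun v hv => ?_)).trans
      (Finset.sum_le_sum_of_subset_of_nonneg (Finset.filter_subset _ _)
        (fun v _ _ => by positivity))
    rw [Finset.mem_filter] at hv
    apply inv_anti₀ (by positivity)
    exact pow_le_pow_of_le_one hq0.le hq1 hv.2
  have h2 := h1.trans (hW t)
  have hqa : 0 < q ^ a := by positivity
  calc (((V t).filter (fun v => a ≤ gc par G t v)).card : ℝ) =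
      ((((V t).filter (fun v => a ≤ gc par G t v)).card : ℝ) * (q ^ a)⁻¹) * q ^ a := by
        rw [mul_assoc, inv_mul_cancel₀ hqa.ne', mul_one]
    _ ≤ ((V 0).card * (A : ℝ) ^ t) * q ^ a := mul_le_mul_of_nonneg_right h2 hqa.le

end Pool.Agent.H637R4.PO
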