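import Pool.Agent.H637R4.PO.Defs0
set_option autoImplicit false
open Complex Topology Filter Metric MeasureTheory Set
namespace Pool.Agent.H637R4.PO

theorem t_UB : S_UB := by
  intro K ψ hE A
  have h1 : ∀ᶠ z in Bornology.cobounded ℂ, (1 / 2 : ℝ) < ‖ψ z / z‖ := by
    have h2 := (continuous_norm.tendsto (1 : ℂ)).comp hE.infinity
    have h3 : (1 / 2 : ℝ) < ‖(1 : ℂ)‖ := by rw [norm_one]; norm_num
    exact h2.eventually (lt_mem_nhds h3)
  rw [(Metric.hasBasis_cobounded_compl_closedBall (0 : ℂ)).eventually_iff] at h1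
  obtain ⟨R0, -, hR0⟩ := h1
  refine ⟨max R0 (2 * |A|) + 1 + |R0|, by
    have := le_max_right R0 (2 * |A|)
    have := abs_nonneg A
    have := abs_nonneg R0
    linarith, ?_⟩
  intro w hw hA
  have h0 := abs_nonneg R0
  by_cases h : ‖w‖ ≤ R0
  · have := le_max_left R0 (2 * |A|)
    linarith
  · have h2 := hR0 (x := w) (by simpa using h)
    have hw0 : 0 < ‖w‖ := by linarith
    rw [norm_div, lt_div_iff₀ hw0] at h2
    have h3 := le_abs_self A
    have h4 := le_max_right R0 (2 * |A|)
    linarith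

end Pool.Agent.H637R4.PO
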