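import Pool.Agent.H637R4.PO.KB
import Pool.Agent.H637R4.PO.QT
import Pool.Agent.H637R4.PO.RAY
import Pool.Agent.H637R4.PO.ESC
import Pool.Agent.H637R4.PO.STEP
import Pool.Agent.H637R4.PO.UB
import Pool.Agent.H637R4.PO.LEB
import Pool.Agent.H637R4.PO.TREE
import Pool.Agent.H637R4.PO.THIRD
import Pool.Agent.H637R4.PO.HOLE
import Pool.Agent.H637R4.PO.SQ
import Pool.Agent.H637R4.PO.COV
import Pool.Agent.H637R4.PO.HD
import Pool.Agent.H637R4.PO.GRM
import Pool.Agent.H637R4.PO.NRM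
import Pool.Agent.H637R4.PO.STAR
import Pool.Agent.H637R4.PO.AREA
import Pool.Agent.H637R4.PO.POR
import Pool.Agent.H637R4.PO.CNT
import Pool.Agent.H637R4.PO.DIM

set_option autoImplicit false

namespace Pool.Agent.H637R4.PO

theorem f_QT : S_QT := t_QT t_KB
theorem f_RAY : S_RAY := t_RAY t_KB
theorem f_ESC : S_ESC := t_ESC f_QT f_RAY
theorem f_STEP : S_STEP := t_STEP f_ESC
theorem f_UB : S_UB := t_UB
theorem f_HOLE : S_HOLE := t_HOLE t_THIRD
theorem f_SQ : S_SQ := t_SQ t_TREE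
theorem f_COV : S_COV := t_COV f_HOLE f_SQ
theorem f_HD : S_HD := t_HD
theorem f_NRM : S_NRM := t_NRM
theorem f_STAR : S_STAR := t_STAR t_GRM
theorem f_AREA : S_AREA := t_AREA f_STAR f_NRM
theorem f_POR : S_POR := t_POR f_STEP f_UB f_AREA
theorem f_CNT : S_CNT := t_CNT f_STEP f_UB f_AREA f_NRM
theorem f_DIM : S_DIM := t_DIM f_CNT f_COV f_HD f_NRM

end Pool.Agent.H637R4.PO
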