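import Pool.Agent.H637R4.PO.Defs2

set_option autoImplicit false

open Complex Topology Filter Metric MeasureTheory Set

namespace Pool.Agent.H637R4.PO

theorem t_ITER (hSTEP2 : S_STEP2) (hSUML : S_SUML) : S_ITER := by
  intro K ψ hψ c U l B hc hU hl hB hB1 hmm hsum
  set a : ℝ := 1 / (200 : ℝ) ^ (2 + l) with ha
  have ha0 : 0 < a := by positivity
  refine ⟨(a / B) ^ (1 / (1 + l)), by positivity, fun n => ?_⟩
  set τ : ℕ → ℝ := fun k => (a / mm K l c ((1 / 2 : ℝ) ^ k)) ^ (1 / (1 + l)) with hτ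
  have key : ∀ n : ℕ, Bnd ψ c ((1 / 2 : ℝ) ^ n)
      (U * 2 ^ n * (2 : ℝ) ^ (-(∑ k ∈ Finset.range n, τ k))) := by
    intro n
    induction n with
    | zero =>
      simp only [pow_zero, Finset.range_zero, Finset.sum_empty, neg_zero, Real.rpow_zero, mul_one]
      exact hB1
    | succ n ih =>
      have h1 := hSTEP2 K ψ hψ c ((1 / 2 : ℝ) ^ n)
        (U * 2 ^ n * (2 : ℝ) ^ (-(∑ k ∈ Finset.range n, τ k))) l hc (by positivity)
        (by positivity) hl (hmm n) ih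
      have h2 : (1 / 2 : ℝ) ^ n / 2 = (1 / 2 : ℝ) ^ (n + 1) := by rw [pow_succ]; ring
      have h3 : 2 * (U * 2 ^ n * (2 : ℝ) ^ (-(∑ k ∈ Finset.range n, τ k))) *
          (2 : ℝ) ^ (-((1 / (200 : ℝ) ^ (2 + l) / mm K l c ((1 / 2 : ℝ) ^ n)) ^ (1 / (1 + l)))) =
          U * 2 ^ (n + 1) * (2 : ℝ) ^ (-(∑ k ∈ Finset.range (n + 1), τ k)) := by
        have e1 : (2 : ℝ) ^ (-(∑ k ∈ Finset.range (n + 1), τ k)) =
            (2 : ℝ) ^ (-(∑ k ∈ Finset.range n, τ k)) * (2 : ℝ) ^ (-(τ n)) := by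
          rw [← Real.rpow_add (by norm_num), Finset.sum_range_succ, neg_add]
        have e2 : (1 / (200 : ℝ) ^ (2 + l) / mm K l c ((1 / 2 : ℝ) ^ n)) ^ (1 / (1 + l)) = τ n := rfl
        rw [e1, e2]
        ring
      rw [h2, h3] at h1
      exact h1
  intro w hw hwb
  refine (key n w hw hwb).trans ?_
  unfold sb
  refine mul_le_mul_of_nonneg_left ?_ (by positivity)
  refine Real.rpow_le_rpow_of_exponent_le (by norm_num) ?_
  have h4 := hSUML l a B (fun k => mm K l c ((1 / 2 : ℝ) ^ k)) n hl ha0 hB (fun k _ => hmm k)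
    (hsum n)
  linarith

end Pool.Agent.H637R4.PO
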