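import Pool.Agent.H637R4.PO.Defs2

set_option autoImplicit false

open Complex Topology Filter Metric MeasureTheory Set
open scoped ENNReal

namespace Pool.Agent.H637R4.PO

theorem MARC_geo (l : ℝ) (hl : 0 < l) (B : ℝ) (hB : 0 < B) (n : ℕ) :
    ∑ k ∈ Finset.range n, (if (2 : ℝ) ^ k < B then ((2 : ℝ) ^ l) ^ k else 0) ≤
      (2 : ℝ) ^ l * B ^ l / ((2 : ℝ) ^ l - 1) := by
  have hx : 1 < (2 : ℝ) ^ l := Real.one_lt_rpow (by norm_num) hl
  have hx1 : 0 < (2 : ℝ) ^ l - 1 := by linarith
  have hBl : 0 < B ^ l := Real.rpow_pos_of_pos hB l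
  induction n with
  | zero =>
    rw [Finset.sum_range_zero]
    positivity
  | succ n ih =>
    by_cases h : (2 : ℝ) ^ n < B
    · calc ∑ k ∈ Finset.range (n + 1), (if (2 : ℝ) ^ k < B then ((2 : ℝ) ^ l) ^ k else 0)
          ≤ ∑ k ∈ Finset.range (n + 1), ((2 : ℝ) ^ l) ^ k :=
            Finset.sum_le_sum fun k _ => by
              split_ifs
              · exact le_rfl
              · positivity
        _ = (((2 : ℝ) ^ l) ^ (n + 1) - 1) / ((2 : ℝ) ^ l - 1) := geom_sum_eq (ne_of_gt hx) _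
        _ ≤ (2 : ℝ) ^ l * B ^ l / ((2 : ℝ) ^ l - 1) := by
            apply div_le_div_of_nonneg_right _ hx1.le
            have h1 : ((2 : ℝ) ^ l) ^ n = ((2 : ℝ) ^ n) ^ l := by
              rw [← Real.rpow_natCast, ← Real.rpow_natCast, ← Real.rpow_mul (by norm_num),
                ← Real.rpow_mul (by norm_num), mul_comm]
            have h2 : ((2 : ℝ) ^ n) ^ l ≤ B ^ l :=
              Real.rpow_le_rpow (by positivity) h.le hl.le
            rw [pow_succ, h1]
            nlinarith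
    · rw [Finset.sum_range_succ, if_neg h, add_zero]
      exact ih

/-- the kernel -/
noncomputable def MARC_G (K : Set ℂ) (l : ℝ) (k : ℕ) (c z : ℂ) : ℝ≥0∞ :=
  {p : ℂ × ℂ | dist p.2 p.1 < 2 * (1 / 2 : ℝ) ^ k}.indicator
    (fun p => ENNReal.ofReal ((infDist p.2 K) ^ l)) (c, z)

theorem MARC_meas (K : Set ℂ) (l : ℝ) (hl : 0 < l) (k : ℕ) :
    Measurable (fun p : ℂ × ℂ => MARC_G K l k p.1 p.2) := by
  have h1 : MeasurableSet {p : ℂ × ℂ | dist p.2 p.1 < 2 * (1 / 2 : ℝ) ^ k} :=
    measurableSet_lt (measurable_snd.dist measurable_fst) measurable_const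
  have h2 : Measurable (fun p : ℂ × ℂ => ENNReal.ofReal ((infDist p.2 K) ^ l)) := by
    have : Continuous (fun p : ℂ × ℂ => (infDist p.2 K) ^ l) :=
      ((Metric.continuous_infDist_pt K).comp continuous_snd).rpow_const fun _ => Or.inr hl.le
    exact ENNReal.measurable_ofReal.comp this.measurable
  exact h2.indicator h1

/-- the constant -/
noncomputable def MARC_a (l : ℝ) (k : ℕ) : ℝ≥0∞ :=
  ENNReal.ofReal ((((1 / 2 : ℝ) ^ k) ^ (2 + l))⁻¹)

theorem MARC_le (K : Set ℂ) (l : ℝ) (hl : 0 < l) (c : ℂ) (k : ℕ) :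
    ENNReal.ofReal (mm K l c ((1 / 2 : ℝ) ^ k)) ≤ MARC_a l k * ∫⁻ z, MARC_G K l k c z := by
  unfold mm MARC_a
  have h0 : 0 ≤ (((1 / 2 : ℝ) ^ k) ^ (2 + l))⁻¹ := by positivity
  rw [div_eq_inv_mul, ENNReal.ofReal_mul h0]
  gcongr
  have hcont : Continuous (fun z : ℂ => (infDist z K) ^ l) :=
    (Metric.continuous_infDist_pt K).rpow_const fun _ => Or.inr hl.le
  rw [integral_eq_lintegral_of_nonneg_ae
    (Filter.Eventually.of_forall fun z => Real.rpow_nonneg infDist_nonneg l)
    hcont.aestronglyMeasurable]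
  refine ENNReal.ofReal_toReal_le.trans ?_
  rw [← lintegral_indicator measurableSet_ball]
  refine lintegral_mono fun z => ?_
  unfold MARC_G
  by_cases hz : z ∈ ball c (2 * (1 / 2 : ℝ) ^ k)
  · have hz2 : (c, z) ∈ {p : ℂ × ℂ | dist p.2 p.1 < 2 * (1 / 2 : ℝ) ^ k} := hz
    rw [indicator_of_mem hz, indicator_of_mem hz2]
  · rw [indicator_of_notMem hz]
    exact zero_le

theorem MARC_empty (K : Set ℂ) (l : ℝ) (k : ℕ) (z : ℂ)
    (h : ∀ c ∈ K, ¬ dist z c < 2 * (1 / 2 : ℝ) ^ k) (hK : MeasurableSet K) :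
    ∫⁻ c in K, MARC_G K l k c z = 0 := by
  rw [setLIntegral_congr_fun hK (g := fun _ => 0)]
  · simp
  · intro c hc
    have hz2 : (c, z) ∉ {p : ℂ × ℂ | dist p.2 p.1 < 2 * (1 / 2 : ℝ) ^ k} := h c hc
    show MARC_G K l k c z = 0
    unfold MARC_G
    rw [indicator_of_notMem hz2]

theorem MARC_vol (K : Set ℂ) (l : ℝ) (k : ℕ) (z : ℂ) :
    ∫⁻ c in K, MARC_G K l k c z ≤
      ENNReal.ofReal ((infDist z K) ^ l * (Real.pi * (2 * (1 / 2 : ℝ) ^ k) ^ 2)) := by
  have h1 : ∀ c, MARC_G K l k c z = (ball z (2 * (1 / 2 : ℝ) ^ k)).indicator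
      (fun _ => ENNReal.ofReal ((infDist z K) ^ l)) c := by
    intro c
    unfold MARC_G
    by_cases hz : c ∈ ball z (2 * (1 / 2 : ℝ) ^ k)
    · have hz2 : (c, z) ∈ {p : ℂ × ℂ | dist p.2 p.1 < 2 * (1 / 2 : ℝ) ^ k} := by
        show dist z c < 2 * (1 / 2 : ℝ) ^ k
        rw [dist_comm]; exact hz
      rw [indicator_of_mem hz, indicator_of_mem hz2]
    · have hz2 : (c, z) ∉ {p : ℂ × ℂ | dist p.2 p.1 < 2 * (1 / 2 : ℝ) ^ k} := by
        intro h2
        apply hz
        have : dist z c < 2 * (1 / 2 : ℝ) ^ k := h2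
        rw [mem_ball, dist_comm]; exact this
      rw [indicator_of_notMem hz, indicator_of_notMem hz2]
  simp only [h1]
  refine (setLIntegral_le_lintegral _ _).trans ?_
  rw [lintegral_indicator measurableSet_ball, setLIntegral_const, Complex.volume_ball]
  rw [ENNReal.ofReal_mul (Real.rpow_nonneg infDist_nonneg l)]
  gcongr
  rw [ENNReal.ofReal_mul Real.pi_pos.le, ← ENNReal.ofReal_pow (by positivity), mul_comm]
  gcongr
  rw [← NNReal.coe_real_pi, ENNReal.ofReal_coe_nnreal]

theorem MARC_term (K : Set ℂ) (hK : IsClosed K) (l : ℝ) (hl : 0 < l) (k : ℕ) (z : ℂ)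
    (hδ : 0 < infDist z K) :
    MARC_a l k * ∫⁻ c in K, MARC_G K l k c z ≤
      ENNReal.ofReal (4 * Real.pi * (infDist z K) ^ l *
        (if (2 : ℝ) ^ k < 2 / infDist z K then ((2 : ℝ) ^ l) ^ k else 0)) := by
  by_cases h : (2 : ℝ) ^ k < 2 / infDist z K
  · rw [if_pos h]
    calc MARC_a l k * ∫⁻ c in K, MARC_G K l k c z
        ≤ MARC_a l k * ENNReal.ofReal ((infDist z K) ^ l *
            (Real.pi * (2 * (1 / 2 : ℝ) ^ k) ^ 2)) := by
          gcongr
          exact MARC_vol K l k z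
      _ = ENNReal.ofReal (4 * Real.pi * (infDist z K) ^ l * ((2 : ℝ) ^ l) ^ k) := by
          unfold MARC_a
          rw [← ENNReal.ofReal_mul (by positivity)]
          congr 1
          have e1 : (((1 / 2 : ℝ) ^ k) ^ (2 + l))⁻¹ = ((2 : ℝ) ^ k) ^ 2 * ((2 : ℝ) ^ l) ^ k := by
            rw [Real.rpow_add (by positivity), mul_inv]
            congr 1
            · rw [show (2 : ℝ) = ((2 : ℕ) : ℝ) by norm_num, Real.rpow_natCast]
              rw [one_div, inv_pow, inv_pow, inv_inv]
            · rw [one_div, inv_pow, Real.inv_rpow (by positivity), inv_inv,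
                ← Real.rpow_natCast, ← Real.rpow_natCast, ← Real.rpow_mul (by norm_num),
                ← Real.rpow_mul (by norm_num), mul_comm]
          rw [e1, one_div, inv_pow, mul_pow, inv_pow]
          have h2 : (2 : ℝ) ^ k ≠ 0 := by positivity
          field_simp
          ring
  · rw [if_neg h, mul_zero, ENNReal.ofReal_zero, MARC_empty K l k z _ hK.measurableSet, mul_zero]
    intro c hc hd
    apply h
    have h1 : infDist z K < 2 * (1 / 2 : ℝ) ^ k := (infDist_le_dist_of_mem hc).trans_lt hd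
    rw [lt_div_iff₀ hδ]
    have h2 : (0 : ℝ) < 2 ^ k := by positivity
    calc (2 : ℝ) ^ k * infDist z K < 2 ^ k * (2 * (1 / 2 : ℝ) ^ k) :=
          mul_lt_mul_of_pos_left h1 h2
      _ = 2 := by
          rw [one_div, inv_pow]
          field_simp

theorem MARC_point (K : Set ℂ) (hK : IsClosed K) (hsub : K ⊆ closedBall 0 2) (l : ℝ) (hl : 0 < l)
    (z : ℂ) : ∑' k : ℕ, MARC_a l k * ∫⁻ c in K, MARC_G K l k c z ≤
      (ball (0 : ℂ) 4).indicator (fun _ => ENNReal.ofReal
        (4 * Real.pi * ((2 : ℝ) ^ l * (2 : ℝ) ^ l / ((2 : ℝ) ^ l - 1)))) z := by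
  by_cases hz : z ∈ ball (0 : ℂ) 4
  · rw [indicator_of_mem hz]
    rcases (infDist_nonneg (x := z) (s := K)).eq_or_lt with h0 | hδ
    · have : ∀ k : ℕ, MARC_a l k * ∫⁻ c in K, MARC_G K l k c z = 0 := by
        intro k
        have h1 := MARC_vol K l k z
        rw [← h0, Real.zero_rpow hl.ne', zero_mul, ENNReal.ofReal_zero] at h1
        rw [le_antisymm h1 zero_le, mul_zero]
      simp only [this, tsum_zero]
      exact zero_le
    · refine ENNReal.tsum_le_of_sum_range_le fun n => ?_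
      calc ∑ k ∈ Finset.range n, MARC_a l k * ∫⁻ c in K, MARC_G K l k c z
          ≤ ∑ k ∈ Finset.range n, ENNReal.ofReal (4 * Real.pi * (infDist z K) ^ l *
              (if (2 : ℝ) ^ k < 2 / infDist z K then ((2 : ℝ) ^ l) ^ k else 0)) :=
            Finset.sum_le_sum fun k _ => MARC_term K hK l hl k z hδ
        _ = ENNReal.ofReal (∑ k ∈ Finset.range n, 4 * Real.pi * (infDist z K) ^ l *
              (if (2 : ℝ) ^ k < 2 / infDist z K then ((2 : ℝ) ^ l) ^ k else 0)) := by
            rw [ENNReal.ofReal_sum_of_nonneg]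
            intro k _
            split_ifs <;> positivity
        _ ≤ _ := by
            apply ENNReal.ofReal_le_ofReal
            rw [← Finset.mul_sum]
            have h1 := MARC_geo l hl (2 / infDist z K) (by positivity) n
            have hx : 1 < (2 : ℝ) ^ l := Real.one_lt_rpow (by norm_num) hl
            have h2 : (2 / infDist z K) ^ l = (2 : ℝ) ^ l / (infDist z K) ^ l :=
              Real.div_rpow (by norm_num) hδ.le l
            have h3 : 0 < (infDist z K) ^ l := Real.rpow_pos_of_pos hδ l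
            calc 4 * Real.pi * (infDist z K) ^ l * ∑ k ∈ Finset.range n,
                  (if (2 : ℝ) ^ k < 2 / infDist z K then ((2 : ℝ) ^ l) ^ k else 0)
                ≤ 4 * Real.pi * (infDist z K) ^ l *
                  ((2 : ℝ) ^ l * (2 / infDist z K) ^ l / ((2 : ℝ) ^ l - 1)) :=
                  mul_le_mul_of_nonneg_left h1 (by positivity)
              _ = 4 * Real.pi * ((2 : ℝ) ^ l * (2 : ℝ) ^ l / ((2 : ℝ) ^ l - 1)) := by
                  rw [h2]
                  have h4 : (2 : ℝ) ^ l - 1 ≠ 0 := by linarith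
                  field_simp
  · rw [indicator_of_notMem hz]
    have : ∀ k : ℕ, MARC_a l k * ∫⁻ c in K, MARC_G K l k c z = 0 := by
      intro k
      rw [MARC_empty K l k z _ hK.measurableSet, mul_zero]
      intro c hc hd
      apply hz
      have h1 := hsub hc
      rw [mem_closedBall_zero_iff] at h1
      rw [mem_ball_zero_iff]
      have h2 : (1 / 2 : ℝ) ^ k ≤ 1 := pow_le_one₀ (by norm_num) (by norm_num)
      have h3 : ‖z‖ ≤ dist z c + ‖c‖ := by
        rw [dist_eq_norm]
        calc ‖z‖ = ‖(z - c) + c‖ := by ring_nf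
          _ ≤ ‖z - c‖ + ‖c‖ := norm_add_le _ _
      linarith
    simp only [this, tsum_zero]
    exact le_rfl

theorem t_MARC : S_MARC := by
  intro K hK hsub _ l hl _
  have hG := fun k => MARC_meas K l hl k
  have hFm : ∀ k : ℕ, Measurable (fun c : ℂ => MARC_a l k * ∫⁻ z, MARC_G K l k c z) := fun k =>
    ((hG k).lintegral_prod_right').const_mul _
  have hfin : ∫⁻ c in K, ∑' k : ℕ, MARC_a l k * ∫⁻ z, MARC_G K l k c z ≠ ∞ := by
    rw [lintegral_tsum fun k => (hFm k).aemeasurable]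
    have e1 : ∀ k : ℕ, ∫⁻ c in K, MARC_a l k * ∫⁻ z, MARC_G K l k c z =
        ∫⁻ z, MARC_a l k * ∫⁻ c in K, MARC_G K l k c z := by
      intro k
      rw [lintegral_const_mul _ (hG k).lintegral_prod_right',
        lintegral_const_mul _ (hG k).lintegral_prod_left']
      congr 1
      exact lintegral_lintegral_swap (hG k).aemeasurable
    simp only [e1]
    rw [← lintegral_tsum fun k => ((hG k).lintegral_prod_left'.const_mul _).aemeasurable]
    refine ((lintegral_mono (MARC_point K hK hsub l hl)).trans_lt ?_).ne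
    rw [lintegral_indicator measurableSet_ball, setLIntegral_const]
    exact ENNReal.mul_lt_top ENNReal.ofReal_lt_top measure_ball_lt_top
  have hae := ae_lt_top (Measurable.ennreal_tsum hFm) hfin
  filter_upwards [hae] with c hc
  have h1 : ∑' k : ℕ, ENNReal.ofReal (mm K l c ((1 / 2 : ℝ) ^ k)) ≠ ∞ :=
    ((ENNReal.tsum_le_tsum fun k => MARC_le K l hl c k).trans_lt hc).ne
  have h2 := ENNReal.summable_toReal h1
  refine h2.congr fun k => ?_
  rw [ENNReal.toReal_ofReal]
  unfold mm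
  apply div_nonneg
  · exact integral_nonneg fun z => Real.rpow_nonneg infDist_nonneg l
  · positivity

end Pool.Agent.H637R4.PO
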