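import Pool.Agent.H637R4.PO.Defs3

set_option autoImplicit false

open Complex Topology Filter Metric MeasureTheory Set N62a1eb23
open Pool.Agent.H713R2 Pool.Agent.H713R2.AR

namespace Pool.Agent.H637R4.PO

theorem t_MONO : S_MONO := by
  intro d hd c _ s t hst
  unfold Ar
  refine ENNReal.toReal_mono ?_ (measure_mono ?_)
  · exact (isCompact_GLev hd c t).measure_lt_top.ne
  · intro z hz
    exact le_trans hz hst

end Pool.Agent.H637R4.PO
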