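import Pool.Agent.H637R4.PO.Defs2

set_option autoImplicit false

open Complex Topology Filter Metric MeasureTheory Set

namespace Pool.Agent.H637R4.PO

theorem t_NUL : S_NUL := by
  intro K hK c ρ l hc hρ hl hm z hz
  by_contra hzK
  have hne : K.Nonempty := ⟨c, hc⟩
  have hpos : 0 < infDist z K := (hK.notMem_iff_infDist_pos hne).1 hzK
  have hcont : Continuous fun z : ℂ => (infDist z K) ^ l :=
    (continuous_infDist_pt K).rpow_const (fun _ => Or.inr hl.le)
  have hint : IntegrableOn (fun z : ℂ => (infDist z K) ^ l) (ball c (2 * ρ)) volume :=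
    (hcont.continuousOn.integrableOn_compact (isCompact_closedBall c (2 * ρ))).mono_set
      ball_subset_closedBall
  have h0 : 0 < ∫ z in ball c (2 * ρ), (infDist z K) ^ l := by
    rw [setIntegral_pos_iff_support_of_nonneg_ae]
    · apply IsOpen.measure_pos
      · exact (hcont.isOpen_support).inter isOpen_ball
      · exact ⟨z, by
          rw [Function.mem_support]
          exact (Real.rpow_pos_of_pos hpos l).ne', hz⟩
    · exact Filter.Eventually.of_forall fun w => Real.rpow_nonneg infDist_nonneg l
    · exact hint
  have h1 : 0 < mm K l c ρ := by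
    unfold mm
    exact div_pos h0 (Real.rpow_pos_of_pos hρ _)
  linarith

end Pool.Agent.H637R4.PO
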