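import Pool.Agent.H637R4.PO.Defs2

set_option autoImplicit false

open Complex Topology Filter Metric MeasureTheory Set

namespace Pool.Agent.H637R4.PO

theorem t_STEP2 (hB : S_BALLS) : S_STEP2 := by
  intro K ψ hE c ρ s l hc hρ hs hl hm hbnd w hw hψ
  have hw0 : (0 : ℝ) < ‖w‖ := by linarith
  have hwc : (‖w‖ : ℂ) ≠ 0 := by exact_mod_cast hw0.ne'
  obtain ⟨x, hx⟩ : ∃ x : ℝ, x = ‖w‖ - 1 := ⟨_, rfl⟩
  obtain ⟨e, he⟩ : ∃ e : ℂ, e = w / (‖w‖ : ℂ) := ⟨_, rfl⟩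
  have hx0 : 0 < x := by linarith
  have he1 : ‖e‖ = 1 := by
    rw [he, norm_div, Complex.norm_real, norm_norm, div_self hw0.ne']
  have hwe : w = ((1 + x : ℝ) : ℂ) * e := by
    rw [he, hx, show (1 + (‖w‖ - 1) : ℝ) = ‖w‖ by ring]
    field_simp
  have hnorm : ∀ t : ℝ, 0 < t → ‖((1 + t : ℝ) : ℂ) * e‖ = 1 + t := by
    intro t ht
    rw [norm_mul, he1, mul_one, Complex.norm_real, Real.norm_eq_abs, abs_of_pos (by linarith)]
  have hout : ∀ t : ℝ, 0 < t → ψ (((1 + t : ℝ) : ℂ) * e) ∈ ball c ρ → t ≤ s := by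
    intro t ht h
    have h1 := hbnd _ (by rw [hnorm t ht]; linarith) h
    rw [hnorm t ht] at h1
    linarith
  classical
  have hex : ∃ N : ℕ, ψ (((1 + 2 ^ N * x : ℝ) : ℂ) * e) ∉ ball c ρ := by
    obtain ⟨N, hN⟩ := pow_unbounded_of_one_lt (s / x) (by norm_num : (1 : ℝ) < 2)
    refine ⟨N, fun h => ?_⟩
    have h1 := hout (2 ^ N * x) (by positivity) h
    rw [div_lt_iff₀ hx0] at hN
    linarith
  obtain ⟨N, hN⟩ : ∃ N, N = Nat.find hex := ⟨_, rfl⟩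
  have hN1 : ψ (((1 + 2 ^ N * x : ℝ) : ℂ) * e) ∉ ball c ρ := hN ▸ Nat.find_spec hex
  have hN2 : ∀ j < N, ψ (((1 + 2 ^ j * x : ℝ) : ℂ) * e) ∈ ball c ρ := by
    intro j hj
    by_contra h
    exact Nat.find_min hex (hN ▸ hj) h
  have hN0 : 1 ≤ N := by
    by_contra h0
    have h1 : N = 0 := by omega
    rw [h1, pow_zero, one_mul, ← hwe] at hN1
    exact hN1 (ball_subset_ball (by linarith) hψ)
  have hxs : 2 ^ (N - 1) * x ≤ s :=
    hout _ (by positivity) (hN2 (N - 1) (by omega))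
  have hb := hB K ψ hE c e x ρ l N hc he1 hx0 hρ hl (hwe ▸ hψ) hN2 hN1
  have hT : (1 / (200 : ℝ) ^ (2 + l) / mm K l c ρ) ^ (1 / (1 + l)) ≤ N := by
    have h1 : 1 / (200 : ℝ) ^ (2 + l) / mm K l c ρ ≤ (N : ℝ) ^ (1 + l) := by
      rw [div_le_iff₀ hm]
      linarith
    have h2 : 0 ≤ 1 / (200 : ℝ) ^ (2 + l) / mm K l c ρ := by positivity
    calc (1 / (200 : ℝ) ^ (2 + l) / mm K l c ρ) ^ (1 / (1 + l)) ≤
        ((N : ℝ) ^ (1 + l)) ^ (1 / (1 + l)) := Real.rpow_le_rpow h2 h1 (by positivity)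
      _ = N := by
        rw [← Real.rpow_mul (Nat.cast_nonneg N), mul_one_div_cancel (by linarith), Real.rpow_one]
  have h3 : (2 : ℝ) ^ (-(N : ℝ)) ≤
      (2 : ℝ) ^ (-((1 / (200 : ℝ) ^ (2 + l) / mm K l c ρ) ^ (1 / (1 + l)))) :=
    Real.rpow_le_rpow_of_exponent_le (by norm_num) (by linarith)
  have h4 : x ≤ 2 * s * (2 : ℝ) ^ (-(N : ℝ)) := by
    rw [Real.rpow_neg (by norm_num), Real.rpow_natCast, ← div_eq_mul_inv,
      le_div_iff₀ (by positivity)]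
    have h5 : (2 : ℝ) ^ N = 2 ^ (N - 1) * 2 := by
      rw [← pow_succ]; congr 1; omega
    rw [h5]
    linarith
  calc ‖w‖ - 1 = x := hx.symm
    _ ≤ 2 * s * (2 : ℝ) ^ (-(N : ℝ)) := h4
    _ ≤ _ := by gcongr

end Pool.Agent.H637R4.PO
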