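import Pool.Agent.H637R4.PO.Defs2

set_option autoImplicit false

open Complex Topology Filter Metric MeasureTheory Set

namespace Pool.Agent.H637R4.PO

theorem SUML_bern (p u : ℝ) (hp : 0 < p) (hu : 0 < u) : 1 - p * (u - 1) ≤ u ^ (-p) := by
  rw [Real.rpow_def_of_pos hu]
  have h1 := Real.add_one_le_exp (Real.log u * -p)
  have h2 := Real.log_le_sub_one_of_pos hu
  nlinarith

theorem t_SUML : S_SUML := by
  intro l a B m n hl ha hB hm hsum
  set p : ℝ := 1 / (1 + l) with hp
  have hp0 : 0 < p := by positivity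
  have hpe : (2 + l) / (1 + l) = 1 + p := by rw [hp]; field_simp; ring
  rcases Nat.eq_zero_or_pos n with h0 | hn
  · subst h0
    rw [hpe, Nat.cast_zero, Real.zero_rpow (by positivity), mul_zero]
    simp
  have hnR : (0 : ℝ) < n := by exact_mod_cast hn
  set t : ℝ := B / n with ht
  have ht0 : 0 < t := by positivity
  have hk : ∀ k ∈ Finset.range n, (a / t) ^ p * (1 - p * (m k / t - 1)) ≤ (a / m k) ^ p := by
    intro k hk
    have hmk := hm k (Finset.mem_range.1 hk)
    have h1 := SUML_bern p (m k / t) hp0 (by positivity)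
    have h2 : (a / m k) ^ p = (a / t) ^ p * (m k / t) ^ (-p) := by
      rw [Real.rpow_neg (by positivity), ← Real.inv_rpow (by positivity),
        ← Real.mul_rpow (by positivity) (by positivity)]
      congr 1
      field_simp
    rw [h2]
    exact mul_le_mul_of_nonneg_left h1 (by positivity)
  have h3 := Finset.sum_le_sum hk
  refine le_trans ?_ h3
  rw [← Finset.mul_sum]
  have h4 : ∑ k ∈ Finset.range n, (1 - p * (m k / t - 1)) =
      n + p * n - p * ((∑ k ∈ Finset.range n, m k) / t) := by
    rw [Finset.sum_sub_distrib, ← Finset.mul_sum, Finset.sum_sub_distrib, ← Finset.sum_div]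
    simp
    ring
  have h5 : (∑ k ∈ Finset.range n, m k) / t ≤ n := by
    rw [div_le_iff₀ ht0, ht]
    field_simp
    exact hsum
  have h6 : (n : ℝ) ≤ ∑ k ∈ Finset.range n, (1 - p * (m k / t - 1)) := by
    rw [h4]
    nlinarith
  have h7 : (a / B) ^ p * (n : ℝ) ^ ((2 + l) / (1 + l)) = (a / t) ^ p * n := by
    have h8 : a / t = a / B * n := by rw [ht]; field_simp
    rw [h8, Real.mul_rpow (by positivity) (by positivity), hpe, Real.rpow_add hnR,
      Real.rpow_one]
    ring
  rw [h7]
  exact mul_le_mul_of_nonneg_left h6 (by positivity)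

end Pool.Agent.H637R4.PO
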