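import Pool.Agent.H637R4.PO.Fin
import Pool.Agent.H637R4.PO.CLO
import Pool.Agent.H637R4.PO.BALLS
import Pool.Agent.H637R4.PO.STEP2
import Pool.Agent.H637R4.PO.MARC
import Pool.Agent.H637R4.PO.SUML
import Pool.Agent.H637R4.PO.ITER
import Pool.Agent.H637R4.PO.ASY
import Pool.Agent.H637R4.PO.NULx
import Pool.Agent.H637R4.PO.MONO
import Pool.Agent.H637R4.PO.AE2

set_option autoImplicit false

open Complex Topology Filter Metric MeasureTheory Set N62a1eb23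
open Pool.Agent.H713R2 Pool.Agent.H713R2.AR

namespace Pool.Agent.H637R4.PO

theorem f_BALLS : S_BALLS := t_BALLS f_QT f_RAY
theorem f_STEP2 : S_STEP2 := t_STEP2 f_BALLS
theorem f_ITER : S_ITER := t_ITER f_STEP2 t_SUML
theorem f_AE2 : S_AE2 := t_AE2 f_ITER t_MARC t_ASY t_NUL t_MONO f_AREA f_NRM t_CLO f_UB

/-- measure zero form -/
theorem f_null (d : ℕ) (hd : 2 ≤ d) : volume {c : ℂ | c ∈ multibrotSet d ∧ ∃ β : ℝ, 1 / 2 < β ∧
    ∃ᶠ s in 𝓝[>] (0 : ℝ), volume {z : ℂ | green d c z ≤ s} <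
      ENNReal.ofReal (Real.exp (-(Real.log (1 / s)) ^ β))} = 0 := by
  have h := f_AE2 d hd
  rw [ae_restrict_iff' (t_CLO d hd).measurableSet] at h
  have h2 : volume {c : ℂ | ¬ (c ∈ multibrotSet d → ∀ β : ℝ, 1 / 2 < β →
    ∃ s₀ : ℝ, 0 < s₀ ∧ ∀ s ∈ Ioo 0 s₀, Real.exp (-(Real.log (1 / s)) ^ β) ≤ Ar d c s)} = 0 := h
  refine measure_mono_null ?_ h2
  rintro c ⟨hc, β, hβ, hf⟩
  intro hcon
  obtain ⟨s₀, hs₀, h3⟩ := hcon hc β hβ
  have h4 : ∀ᶠ s in 𝓝[>] (0 : ℝ), s ∈ Ioo 0 s₀ := Ioo_mem_nhdsGT hs₀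
  obtain ⟨s, hs1, hs2⟩ := (hf.and_eventually h4).exists
  have h5 := h3 s hs2
  have h6 : ENNReal.ofReal (Real.exp (-(Real.log (1 / s)) ^ β)) ≤ volume {z : ℂ | green d c z ≤ s} :=
    ENNReal.ofReal_le_of_le_toReal h5
  exact absurd hs1 (not_lt.mpr h6)

end Pool.Agent.H637R4.PO
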