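import Pool.Agent.H792R2.SS.KB
import Pool.Agent.H637R4.PO.Defs0
set_option autoImplicit false
open Complex Topology Filter Metric MeasureTheory Set
namespace Pool.Agent.H637R4.PO
theorem t_KB : S_KB := by
  intro φ z R hR hd hi
  exact Pool.Agent.H792R2.SS.t_KB φ z R hR hd hi
end Pool.Agent.H637R4.PO
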