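import Pool.Agent.H637R4.PO.Defs1

set_option autoImplicit false

open Complex Topology Filter Metric MeasureTheory Set N62a1eb23
open Pool.Agent.H713R2 Pool.Agent.H713R2.AR

namespace Pool.Agent.H637R4.PO

theorem t_NRM : S_NRM := by
  intro d hd c hc
  have h := (Pool.Agent.H712R2.mem_multibrot_iff hd c).mp hc 1
  rw [Pool.Agent.H712R2.P_succ, Pool.Agent.H712R2.P_zero, zero_pow (by omega), zero_add] at h
  exact h

end Pool.Agent.H637R4.PO
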