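import Pool.Agent.H637R4.PO.Fin2

set_option autoImplicit false

open Complex Topology Filter Metric MeasureTheory Set N62a1eb23
open Pool.Agent.H713R2 Pool.Agent.H713R2.AR

namespace Pool.Agent.H637R4.PO

/-- Pointwise form: if the dyadic Marcinkiewicz sum converges at `c` then the areas decay slowly. -/
theorem f_point (d : ℕ) (hd : 2 ≤ d) (c : ℂ) (hcK : c ∈ multibrotSet d) (l β : ℝ) (hl0 : 0 < l)
    (hlβ : (1 + l) / (2 + l) < β)
    (hs : Summable (fun k : ℕ => mm (multibrotSet d) l c ((1 / 2 : ℝ) ^ k))) :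
    ∃ s₀ : ℝ, 0 < s₀ ∧ ∀ s ∈ Ioo 0 s₀, Real.exp (-(Real.log (1 / s)) ^ β) ≤ Ar d c s := by
  have hcl := t_CLO d hd
  obtain ⟨ψ, hψ⟩ := AE2_ext hd
  obtain ⟨U, hU, hUB'⟩ := f_UB (multibrotSet d) ψ hψ 3
  have hc2 := f_NRM d hd c hcK
  have hB1 : Bnd ψ c 1 U := by
    intro w hw hwb
    apply hUB' w hw
    rw [mem_ball, dist_eq_norm] at hwb
    have := norm_sub_norm_le (ψ w) c
    linarith
  have hdR : (0 : ℝ) < d := by exact_mod_cast (by omega : 0 < d)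
  have hCd : 0 < Cd d := by unfold Cd; positivity
  have hβ0 : 0 < β := lt_trans (by positivity) hlβ
  by_cases hall : ∀ k : ℕ, 0 < mm (multibrotSet d) l c ((1 / 2 : ℝ) ^ k)
  · have hBpos : 0 < (∑' k : ℕ, mm (multibrotSet d) l c ((1 / 2 : ℝ) ^ k)) + 1 := by
      have h2 : 0 ≤ ∑' k : ℕ, mm (multibrotSet d) l c ((1 / 2 : ℝ) ^ k) :=
        tsum_nonneg (fun k => (hall k).le)
      linarith
    obtain ⟨b, hb, hbn⟩ := f_ITER (multibrotSet d) ψ hψ c U l _ hcK hU hl0 hBpos hB1 hall (by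
      intro n
      have := hs.sum_le_tsum (Finset.range n) (fun k _ => (hall k).le)
      linarith)
    exact t_ASY (fun s => Ar d c s) U (Cd d) b l β d hU hCd hb hl0 hdR hlβ
      (fun s t _ hst => t_MONO d hd c hcK s t hst)
      (fun n hn1 => f_AREA d hd ψ hψ c hcK ((1 / 2 : ℝ) ^ n) (sb U b l n) (by positivity)
        (by unfold sb; positivity) hn1 (hbn n))
  · push Not at hall
    obtain ⟨k, hk⟩ := hall
    have hρ : (0 : ℝ) < (1 / 2 : ℝ) ^ k := by positivity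
    have hball := t_NUL (multibrotSet d) hcl c ((1 / 2 : ℝ) ^ k) l hcK hρ hl0 hk
    have hBnd : Bnd ψ c ((1 / 2 : ℝ) ^ k) 0 := by
      intro w hw hwb
      exfalso
      have h2 : ψ w ∈ (multibrotSet d)ᶜ := by
        rw [← hψ.image]
        exact mem_image_of_mem ψ hw
      exact h2 (hball (ball_subset_ball (by linarith) hwb))
    have h3 := f_AREA d hd ψ hψ c hcK ((1 / 2 : ℝ) ^ k) 0 hρ le_rfl zero_le_one hBnd
    rw [zero_div] at h3
    have h4 : 0 < Ar d c 0 := by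
      by_contra hcon
      have := mul_nonpos_of_nonneg_of_nonpos hCd.le (not_lt.1 hcon)
      linarith
    obtain ⟨s₀, hs₀, h5⟩ := AE2_small β (Ar d c 0) hβ0 h4
    exact ⟨s₀, hs₀, fun s hs => (h5 s hs).trans (t_MONO d hd c hcK 0 s hs.1.le)⟩

/-- Divergence of the dyadic Marcinkiewicz sum. -/
theorem f_div (d : ℕ) (hd : 2 ≤ d) (c : ℂ) (hcK : c ∈ multibrotSet d) (l β : ℝ) (hl0 : 0 < l)
    (hlβ : (1 + l) / (2 + l) < β)
    (hf : ∃ᶠ s in 𝓝[>] (0 : ℝ), volume {z : ℂ | green d c z ≤ s} <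
      ENNReal.ofReal (Real.exp (-(Real.log (1 / s)) ^ β))) :
    ¬ Summable (fun k : ℕ => (∫ z in ball c (2 * (1 / 2 : ℝ) ^ k),
      (infDist z (multibrotSet d)) ^ l) / ((1 / 2 : ℝ) ^ k) ^ (2 + l)) := by
  intro hs
  obtain ⟨s₀, hs₀, h3⟩ := f_point d hd c hcK l β hl0 hlβ hs
  have h4 : ∀ᶠ s in 𝓝[>] (0 : ℝ), s ∈ Ioo 0 s₀ := Ioo_mem_nhdsGT hs₀
  obtain ⟨s, hs1, hs2⟩ := (hf.and_eventually h4).exists
  have h6 : ENNReal.ofReal (Real.exp (-(Real.log (1 / s)) ^ β)) ≤ volume {z : ℂ | green d c z ≤ s} :=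
    ENNReal.ofReal_le_of_le_toReal (h3 s hs2)
  exact absurd hs1 (not_lt.mpr h6)

end Pool.Agent.H637R4.PO
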